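import Mathlib

/-! The quantum plane over a field, its monomial basis, the domain property and the Ore condition,
and its division ring of fractions. -/

universe u v

open scoped nonZeroDivisors

namespace Pool.Agent.Helper42

variable (k : Type u) [Field k] (q : kˣ)

/-- The single defining relation `x y = q y x` of the quantum plane, on the free algebra on two
generators `x` (index `0`) and `y` (index `1`). -/
inductive QPRel : FreeAlgebra k (Fin 2) → FreeAlgebra k (Fin 2) → Prop
  | comm : QPRel (FreeAlgebra.ι k 0 * FreeAlgebra.ι k 1)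
      ((q : k) • (FreeAlgebra.ι k 1 * FreeAlgebra.ι k 0))

/-- The quantum plane `k_q[x,y]`, the free algebra on `x, y` modulo `x y = q y x`. -/
def QuantumPlane : Type u := RingQuot (QPRel k q)

noncomputable instance QuantumPlane.instRing : Ring (QuantumPlane k q) :=
  inferInstanceAs (Ring (RingQuot (QPRel k q)))

noncomputable instance QuantumPlane.instAlgebra : Algebra k (QuantumPlane k q) :=
  inferInstanceAs (Algebra k (RingQuot (QPRel k q)))

namespace QuantumPlane

/-- The generator `x`. -/
noncomputable def X : QuantumPlane k q :=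
  (RingQuot.mkAlgHom k (QPRel k q) (FreeAlgebra.ι k 0) : RingQuot (QPRel k q))

/-- The generator `y`. -/
noncomputable def Y : QuantumPlane k q :=
  (RingQuot.mkAlgHom k (QPRel k q) (FreeAlgebra.ι k 1) : RingQuot (QPRel k q))

theorem X_mul_Y : X k q * Y k q = (q : k) • (Y k q * X k q) := by
  have h := RingQuot.mkAlgHom_rel k (QPRel.comm : QPRel k q _ _)
  rw [map_mul, map_smul, map_mul] at h
  exact h

variable {k q}

/-- The universal property of the quantum plane. -/
noncomputable def lift {A : Type v} [Ring A] [Algebra k A] (a b : A)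
    (h : a * b = (q : k) • (b * a)) : QuantumPlane k q →ₐ[k] A :=
  RingQuot.liftAlgHom k ⟨FreeAlgebra.lift k ![a, b], by
    intro x y hxy
    cases hxy
    simp [h]⟩

@[simp] theorem lift_X {A : Type v} [Ring A] [Algebra k A] (a b : A)
    (h : a * b = (q : k) • (b * a)) : lift a b h (X k q) = a := by
  have := RingQuot.liftAlgHom_mkAlgHom_apply (S := k) (s := QPRel k q)
    (FreeAlgebra.lift k ![a, b]) (by intro x y hxy; cases hxy; simp [h]) (FreeAlgebra.ι k 0)
  refine this.trans ?_
  simp

@[simp] theorem lift_Y {A : Type v} [Ring A] [Algebra k A] (a b : A)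
    (h : a * b = (q : k) • (b * a)) : lift a b h (Y k q) = b := by
  have := RingQuot.liftAlgHom_mkAlgHom_apply (S := k) (s := QPRel k q)
    (FreeAlgebra.lift k ![a, b]) (by intro x y hxy; cases hxy; simp [h]) (FreeAlgebra.ι k 1)
  refine this.trans ?_
  simp

theorem algHom_ext {A : Type v} [Ring A] [Algebra k A] {f g : QuantumPlane k q →ₐ[k] A}
    (hX : f (X k q) = g (X k q)) (hY : f (Y k q) = g (Y k q)) : f = g := by
  refine RingQuot.ringQuot_ext' (S := k) (s := QPRel k q) f g ?_
  refine FreeAlgebra.hom_ext ?_
  funext i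
  fin_cases i
  · exact hX
  · exact hY

/-- Induction principle. -/
theorem induction {P : QuantumPlane k q → Prop} (halg : ∀ c : k, P (algebraMap k _ c))
    (hX : P (X k q)) (hY : P (Y k q)) (hadd : ∀ a b, P a → P b → P (a + b))
    (hmul : ∀ a b, P a → P b → P (a * b)) (r : QuantumPlane k q) : P r := by
  obtain ⟨r, rfl⟩ := RingQuot.mkAlgHom_surjective k (QPRel k q) r
  induction r using FreeAlgebra.induction with
  | grade0 c =>
    rw [AlgHom.commutes]; exact halg c
  | grade1 i =>
    fin_cases i
    · exact hX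
    · exact hY
  | mul a b ha hb => rw [map_mul]; exact hmul _ _ ha hb
  | add a b ha hb => rw [map_add]; exact hadd _ _ ha hb

variable (k q)

/-- The monomial `x ^ i * y ^ j`. -/
noncomputable def mono (p : ℕ × ℕ) : QuantumPlane k q := X k q ^ p.1 * Y k q ^ p.2

variable {k q}

theorem Y_mul_X : Y k q * X k q = ((q⁻¹ : kˣ) : k) • (X k q * Y k q) := by
  rw [X_mul_Y, smul_smul]; simp

theorem Y_mul_X_pow (i : ℕ) :
    Y k q * X k q ^ i = (((q⁻¹ : kˣ) : k) ^ i) • (X k q ^ i * Y k q) := by
  induction i with
  | zero => simp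
  | succ i ih =>
    rw [pow_succ', ← mul_assoc, Y_mul_X, smul_mul_assoc, mul_assoc, ih, mul_smul_comm, smul_smul,
      ← mul_assoc, ← pow_succ', pow_succ' _ i]

theorem Y_pow_mul_X_pow (j i : ℕ) :
    Y k q ^ j * X k q ^ i = (((q⁻¹ : kˣ) : k) ^ (j * i)) • (X k q ^ i * Y k q ^ j) := by
  induction j with
  | zero => simp
  | succ j ih =>
    rw [pow_succ, mul_assoc, Y_mul_X_pow, mul_smul_comm, ← mul_assoc, ih, smul_mul_assoc, smul_smul,
      mul_assoc, ← pow_add, add_mul, one_mul, add_comm i]

theorem mono_mul_mono (p r : ℕ × ℕ) :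
    mono k q p * mono k q r = (((q⁻¹ : kˣ) : k) ^ (p.2 * r.1)) • mono k q (p + r) := by
  unfold mono
  calc X k q ^ p.1 * Y k q ^ p.2 * (X k q ^ r.1 * Y k q ^ r.2)
      = X k q ^ p.1 * (Y k q ^ p.2 * X k q ^ r.1) * Y k q ^ r.2 := by simp only [mul_assoc]
    _ = _ := by
      rw [Y_pow_mul_X_pow, mul_smul_comm, smul_mul_assoc]
      congr 1
      simp only [Prod.fst_add, Prod.snd_add, pow_add, mul_assoc]

theorem span_mono : Submodule.span k (Set.range (mono k q)) = ⊤ := by
  rw [eq_top_iff]
  rintro r -
  have one_mem : (1 : QuantumPlane k q) ∈ Submodule.span k (Set.range (mono k q)) :=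
    Submodule.subset_span ⟨(0, 0), by simp [mono]⟩
  have hmul : ∀ a ∈ Submodule.span k (Set.range (mono k q)),
      ∀ b ∈ Submodule.span k (Set.range (mono k q)),
      a * b ∈ Submodule.span k (Set.range (mono k q)) := by
    intro a ha b hb
    induction ha using Submodule.span_induction with
    | mem a ha =>
      obtain ⟨p, rfl⟩ := ha
      induction hb using Submodule.span_induction with
      | mem b hb =>
        obtain ⟨r, rfl⟩ := hb
        rw [mono_mul_mono]
        exact Submodule.smul_mem _ _ (Submodule.subset_span ⟨_, rfl⟩)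
      | zero => simp
      | add b b' _ _ h h' => rw [mul_add]; exact Submodule.add_mem _ h h'
      | smul c b _ h => rw [mul_smul_comm]; exact Submodule.smul_mem _ _ h
    | zero => simp
    | add a a' _ _ h h' => rw [add_mul]; exact Submodule.add_mem _ h h'
    | smul c a _ h => rw [smul_mul_assoc]; exact Submodule.smul_mem _ _ h
  induction r using induction with
  | halg c => rw [Algebra.algebraMap_eq_smul_one]; exact Submodule.smul_mem _ _ one_mem
  | hX => exact Submodule.subset_span ⟨(1, 0), by simp [mono]⟩
  | hY => exact Submodule.subset_span ⟨(0, 1), by simp [mono]⟩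
  | hadd a b ha hb => exact Submodule.add_mem _ ha hb
  | hmul a b ha hb => exact hmul a ha b hb

/-- Left multiplication by `x` on the space with basis the pairs `(i, j)`. -/
noncomputable def LX : (ℕ × ℕ →₀ k) →ₗ[k] (ℕ × ℕ →₀ k) :=
  Finsupp.linearCombination k (fun p : ℕ × ℕ => Finsupp.single (p.1 + 1, p.2) (1 : k))

variable (q) in
/-- Left multiplication by `y` on the space with basis the pairs `(i, j)`. -/
noncomputable def LY : (ℕ × ℕ →₀ k) →ₗ[k] (ℕ × ℕ →₀ k) :=
  Finsupp.linearCombination k
    (fun p : ℕ × ℕ => Finsupp.single (p.1, p.2 + 1) (((q⁻¹ : kˣ) : k) ^ p.1))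

theorem LX_single (p : ℕ × ℕ) (c : k) :
    LX (Finsupp.single p c) = Finsupp.single (p.1 + 1, p.2) c := by
  simp [LX, Finsupp.linearCombination_single]

theorem LY_single (p : ℕ × ℕ) (c : k) :
    LY q (Finsupp.single p c) = Finsupp.single (p.1, p.2 + 1) (c * ((q⁻¹ : kˣ) : k) ^ p.1) := by
  simp [LY, Finsupp.linearCombination_single]

theorem LX_mul_LY : (LX : Module.End k (ℕ × ℕ →₀ k)) * LY q = (q : k) • (LY q * LX) := by
  refine Finsupp.lhom_ext fun p c => ?_
  rw [LinearMap.smul_apply, Module.End.mul_apply, Module.End.mul_apply, LY_single, LX_single,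
    LX_single, LY_single, Finsupp.smul_single]
  congr 1
  have hq : (q : k) * ((q⁻¹ : kˣ) : k) = 1 := by simp
  simp only [smul_eq_mul]
  rw [pow_succ]
  linear_combination (-(c * ((q⁻¹ : kˣ) : k) ^ p.1)) * hq

/-- The action on the space with basis the pairs `(i, j)`. -/
noncomputable def act : QuantumPlane k q →ₐ[k] Module.End k (ℕ × ℕ →₀ k) :=
  lift LX (LY q) LX_mul_LY

theorem act_mono (p : ℕ × ℕ) :
    act (mono k q p) (Finsupp.single (0, 0) 1) = Finsupp.single p 1 := by
  unfold mono act
  rw [map_mul, map_pow, map_pow, lift_X, lift_Y, Module.End.mul_apply]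
  have h1 : ∀ j : ℕ, ((LY q : Module.End k (ℕ × ℕ →₀ k)) ^ j) (Finsupp.single (0, 0) 1)
      = Finsupp.single (0, j) 1 := by
    intro j
    induction j with
    | zero => simp
    | succ j ih => rw [pow_succ', Module.End.mul_apply, ih, LY_single]; simp
  have h2 : ∀ i j : ℕ, ((LX : Module.End k (ℕ × ℕ →₀ k)) ^ i) (Finsupp.single (0, j) 1)
      = Finsupp.single (i, j) 1 := by
    intro i j
    induction i with
    | zero => simp
    | succ i ih => rw [pow_succ', Module.End.mul_apply, ih, LX_single]
  rw [h1, h2]

theorem linearIndependent_mono : LinearIndependent k (mono k q) := by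
  have h : LinearIndependent k (((LinearMap.applyₗ (Finsupp.single ((0, 0) : ℕ × ℕ) (1 : k))) ∘ₗ
      (act (k := k) (q := q)).toLinearMap) ∘ (mono k q)) := by
    have : (((LinearMap.applyₗ (Finsupp.single ((0, 0) : ℕ × ℕ) (1 : k))) ∘ₗ
      (act (k := k) (q := q)).toLinearMap) ∘ (mono k q))
        = fun p => Finsupp.single p (1 : k) := by
      funext p
      exact act_mono p
    rw [this]
    have h2 := (Finsupp.basisSingleOne (R := k) (ι := ℕ × ℕ)).linearIndependent
    have h3 : (⇑(Finsupp.basisSingleOne (R := k) (ι := ℕ × ℕ))) =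
      fun p => Finsupp.single p (1 : k) := by
      funext p
      simp
    rwa [h3] at h2
  exact LinearIndependent.of_comp _ h

/-- The monomial basis. -/
noncomputable def basis : Module.Basis (ℕ × ℕ) k (QuantumPlane k q) :=
  Module.Basis.mk linearIndependent_mono span_mono.ge

theorem basis_apply (p : ℕ × ℕ) : basis p = mono k q p := by
  simp [basis]

theorem eq_sum (r : QuantumPlane k q) :
    r = (basis.repr r).sum (fun p c => c • mono k q p) := by
  conv_lhs => rw [← basis.linearCombination_repr r]
  rw [Finsupp.linearCombination_apply]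
  simp only [basis_apply]

theorem repr_mono (p : ℕ × ℕ) : basis.repr (mono k q p) = Finsupp.single p 1 := by
  rw [← basis_apply, Module.Basis.repr_self]

instance instNontrivial : Nontrivial (QuantumPlane k q) :=
  ⟨⟨mono k q (0, 0), 0, by
    intro h
    have := congrArg basis.repr h
    rw [repr_mono, map_zero] at this
    simp at this⟩⟩

theorem repr_mul_mono (r : QuantumPlane k q) (p n : ℕ × ℕ) :
    basis.repr (r * mono k q p) n =
      (basis.repr r).sum (fun m c => if m + p = n then
        c * ((q⁻¹ : kˣ) : k) ^ (m.2 * p.1) else 0) := by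
  conv_lhs => rw [eq_sum r]
  rw [Finsupp.sum, Finset.sum_mul, map_sum, Finsupp.finsetSum_apply, Finsupp.sum]
  refine Finset.sum_congr rfl fun m _ => ?_
  rw [smul_mul_assoc, mono_mul_mono, map_smul, map_smul, repr_mono]
  simp only [Finsupp.smul_apply, Finsupp.single_apply, smul_eq_mul]
  split_ifs <;> simp

theorem repr_mul (r s : QuantumPlane k q) (n : ℕ × ℕ) :
    basis.repr (r * s) n =
      (basis.repr r).sum (fun m c => (basis.repr s).sum (fun m' c' => if m + m' = n then
        c * c' * ((q⁻¹ : kˣ) : k) ^ (m.2 * m'.1) else 0)) := by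
  conv_lhs => rw [eq_sum r, eq_sum s]
  rw [Finsupp.sum, Finsupp.sum, Finset.sum_mul_sum, map_sum, Finsupp.finsetSum_apply, Finsupp.sum]
  refine Finset.sum_congr rfl fun m _ => ?_
  rw [map_sum, Finsupp.finsetSum_apply, Finsupp.sum]
  refine Finset.sum_congr rfl fun m' _ => ?_
  rw [smul_mul_smul_comm, mono_mul_mono, smul_smul, map_smul, repr_mono]
  simp only [Finsupp.smul_apply, Finsupp.single_apply, smul_eq_mul]
  split_ifs <;> simp

instance instNoZeroDivisors : NoZeroDivisors (QuantumPlane k q) where
  eq_zero_or_eq_zero_of_mul_eq_zero := by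
    intro r s hrs
    by_contra hne
    push Not at hne
    have hr : (basis.repr r).support.Nonempty := by
      rw [Finsupp.support_nonempty_iff]
      intro h
      exact hne.1 (by simpa using h)
    have hs : (basis.repr s).support.Nonempty := by
      rw [Finsupp.support_nonempty_iff]
      intro h
      exact hne.2 (by simpa using h)
    obtain ⟨a, ha, b, hb, hu⟩ := UniqueSums.uniqueAdd_of_nonempty hr hs
    have h0 : basis.repr (r * s) (a + b) = 0 := by rw [hrs]; simp
    rw [repr_mul] at h0
    rw [Finsupp.sum, Finset.sum_eq_single_of_mem a ha, Finsupp.sum,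
      Finset.sum_eq_single_of_mem b hb] at h0
    · simp only [if_true] at h0
      have h1 : basis.repr r a ≠ 0 := Finsupp.mem_support_iff.mp ha
      have h2 : basis.repr s b ≠ 0 := Finsupp.mem_support_iff.mp hb
      have h3 : ((q⁻¹ : kˣ) : k) ^ (a.2 * b.1) ≠ 0 := pow_ne_zero _ (Units.ne_zero _)
      exact mul_ne_zero (mul_ne_zero h1 h2) h3 h0
    · intro b' hb' hne'
      rw [if_neg]
      intro h
      exact hne' (hu ha hb' h).2
    · intro a' ha' hne'
      rw [Finsupp.sum]
      refine Finset.sum_eq_zero fun b' hb' => ?_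
      rw [if_neg]
      intro h
      exact hne' (hu ha' hb' h).1

instance instIsDomain : IsDomain (QuantumPlane k q) := NoZeroDivisors.to_isDomain _

/-- The space of polynomials of degree less than `n` in each variable. -/
noncomputable def box (k : Type u) [Field k] (q : kˣ) (n : ℕ) : Submodule k (QuantumPlane k q) :=
  Submodule.span k (Set.range (fun p : Fin n × Fin n => mono k q (p.1, p.2)))

instance (n : ℕ) : Module.Finite k (box k q n) :=
  Module.Finite.span_of_finite k (Set.finite_range _)

theorem finrank_box (n : ℕ) : Module.finrank k (box k q n) = n * n := by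
  unfold box
  rw [finrank_span_eq_card]
  · simp
  · have h := linearIndependent_mono (k := k) (q := q)
    exact h.comp (fun p : Fin n × Fin n => ((p.1 : ℕ), (p.2 : ℕ))) (by
      intro p r h
      simp only [Prod.mk.injEq] at h
      exact Prod.ext (Fin.ext h.1) (Fin.ext h.2))

theorem mono_mem_box {n : ℕ} {p : ℕ × ℕ} (h1 : p.1 < n) (h2 : p.2 < n) :
    mono k q p ∈ box k q n :=
  Submodule.subset_span ⟨(⟨p.1, h1⟩, ⟨p.2, h2⟩), rfl⟩

theorem mul_mem_box {n m : ℕ} {a b : QuantumPlane k q} (ha : a ∈ box k q n) (hb : b ∈ box k q m) :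
    a * b ∈ box k q (n + m) := by
  unfold box at ha hb
  induction ha using Submodule.span_induction with
  | mem a ha =>
    obtain ⟨p, rfl⟩ := ha
    induction hb using Submodule.span_induction with
    | mem b hb =>
      obtain ⟨r, rfl⟩ := hb
      simp only
      rw [mono_mul_mono]
      refine Submodule.smul_mem _ _ (mono_mem_box ?_ ?_)
      · simp only [Prod.mk_add_mk]; omega
      · simp only [Prod.mk_add_mk]; omega
    | zero => simp
    | add b b' _ _ h h' => rw [mul_add]; exact Submodule.add_mem _ h h'
    | smul c b _ h => rw [mul_smul_comm]; exact Submodule.smul_mem _ _ h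
  | zero => simp
  | add a a' _ _ h h' => rw [add_mul]; exact Submodule.add_mem _ h h'
  | smul c a _ h => rw [smul_mul_assoc]; exact Submodule.smul_mem _ _ h

theorem box_mono {n m : ℕ} (h : n ≤ m) : box k q n ≤ box k q m := by
  unfold box
  rw [Submodule.span_le]
  rintro _ ⟨p, rfl⟩
  exact mono_mem_box (by simp only; omega) (by simp only; omega)

theorem exists_mem_box (r : QuantumPlane k q) : ∃ n, r ∈ box k q n := by
  have hr : r ∈ Submodule.span k (Set.range (mono k q)) := by rw [span_mono]; trivial
  induction hr using Submodule.span_induction with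
  | mem a ha =>
    obtain ⟨p, rfl⟩ := ha
    exact ⟨p.1 + p.2 + 1, mono_mem_box (by omega) (by omega)⟩
  | zero => exact ⟨0, Submodule.zero_mem _⟩
  | add a a' _ _ h h' =>
    obtain ⟨n, hn⟩ := h
    obtain ⟨m, hm⟩ := h'
    exact ⟨max n m, Submodule.add_mem _ (box_mono (le_max_left _ _) hn)
      (box_mono (le_max_right _ _) hm)⟩
  | smul c a _ h =>
    obtain ⟨n, hn⟩ := h
    exact ⟨n, Submodule.smul_mem _ _ hn⟩

theorem ore (r s : QuantumPlane k q) (hs : s ≠ 0) :
    ∃ r' s' : QuantumPlane k q, s' ≠ 0 ∧ s' * r = r' * s := by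
  by_cases hr : r = 0
  · exact ⟨0, 1, one_ne_zero, by simp [hr]⟩
  obtain ⟨n, hn⟩ := exists_mem_box r
  obtain ⟨m, hm⟩ := exists_mem_box s
  set d := n + m + 1 with hd
  have hn' : r ∈ box k q d := box_mono (by omega) hn
  have hm' : s ∈ box k q d := box_mono (by omega) hm
  set N := 3 * d with hN
  let f : (box k q N × box k q N) →ₗ[k] box k q (N + d) :=
    LinearMap.coprod
      (LinearMap.codRestrict _ ((LinearMap.mulRight k r).comp (box k q N).subtype)
        (fun u => mul_mem_box u.2 hn'))
      (LinearMap.codRestrict _ ((-LinearMap.mulRight k s).comp (box k q N).subtype)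
        (fun u => by
          have := mul_mem_box u.2 hm'
          simpa using (Submodule.neg_mem _ this)))
  have hker : LinearMap.ker f ≠ ⊥ := by
    apply LinearMap.ker_ne_bot_of_finrank_lt
    rw [Module.finrank_prod, finrank_box, finrank_box, hN]
    nlinarith [Nat.zero_le (n + m)]
  obtain ⟨⟨u, v⟩, huv, hne⟩ := (Submodule.ne_bot_iff _).mp hker
  have heq : (u : QuantumPlane k q) * r = (v : QuantumPlane k q) * s := by
    have h1 := LinearMap.mem_ker.mp huv
    have h2 := congrArg (Subtype.val) h1
    simp only [f, LinearMap.coprod_apply, Submodule.coe_add, LinearMap.codRestrict_apply,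
      LinearMap.comp_apply, Submodule.subtype_apply, LinearMap.mulRight_apply,
      LinearMap.neg_apply, ZeroMemClass.coe_zero] at h2
    exact add_neg_eq_zero.mp h2
  refine ⟨v, u, ?_, heq⟩
  intro hu
  rw [hu, zero_mul] at heq
  have hv : (v : QuantumPlane k q) = 0 := by
    rcases mul_eq_zero.mp heq.symm with h | h
    · exact h
    · exact absurd h hs
  apply hne
  ext
  · exact hu
  · exact hv

theorem nonempty_oreSet :
    Nonempty (OreLocalization.OreSet (nonZeroDivisors (QuantumPlane k q))) :=
  OreLocalization.nonempty_oreSet_iff_of_noZeroDivisors.mpr (by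
    intro r s
    obtain ⟨r', s', hs', h⟩ := ore r (s : QuantumPlane k q) (nonZeroDivisors.coe_ne_zero s)
    exact ⟨r', ⟨s', mem_nonZeroDivisors_of_ne_zero hs'⟩, h⟩)

/-- The nonzero elements of the quantum plane form a left Ore set. -/
noncomputable instance instOreSet : OreLocalization.OreSet (nonZeroDivisors (QuantumPlane k q)) :=
  Classical.choice nonempty_oreSet

end QuantumPlane

end Pool.Agent.Helper42
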