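import Mathlib
import Pool.Agent.Helper42.QuantumPlane

/-! The `q`-division ring and its universal property. -/

universe u v

open scoped nonZeroDivisors

namespace Pool.Agent.Helper42

/-- The `q`-division ring `k_q(x,y)`, the division ring of (left) fractions of the quantum plane. -/
def QDiv (k : Type u) [Field k] (q : kˣ) : Type u :=
  OreLocalization (nonZeroDivisors (QuantumPlane k q)) (QuantumPlane k q)

noncomputable instance QDiv.instDivisionRing (k : Type u) [Field k] (q : kˣ) :
    DivisionRing (QDiv k q) :=
  inferInstanceAs (DivisionRing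
    (OreLocalization (nonZeroDivisors (QuantumPlane k q)) (QuantumPlane k q)))

noncomputable instance QDiv.instAlgebra (k : Type u) [Field k] (q : kˣ) : Algebra k (QDiv k q) :=
  inferInstanceAs (Algebra k
    (OreLocalization (nonZeroDivisors (QuantumPlane k q)) (QuantumPlane k q)))

namespace QuantumPlane

variable {k : Type u} [Field k] {q : kˣ}

theorem repr_mul_mono_add (r : QuantumPlane k q) (p m : ℕ × ℕ) :
    basis.repr (r * mono k q p) (m + p) = basis.repr r m * ((q⁻¹ : kˣ) : k) ^ (m.2 * p.1) := by
  rw [repr_mul_mono, Finsupp.sum, Finset.sum_eq_single m]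
  · rw [if_pos rfl]
  · intro b _ hb
    rw [if_neg]
    intro h
    exact hb (add_right_cancel h)
  · intro h
    rw [Finsupp.notMem_support_iff] at h
    simp [h]

theorem repr_mul_mono_eq_zero (r : QuantumPlane k q) (p n : ℕ × ℕ)
    (h : ∀ m, m + p = n → basis.repr r m = 0) : basis.repr (r * mono k q p) n = 0 := by
  rw [repr_mul_mono, Finsupp.sum]
  refine Finset.sum_eq_zero fun m _ => ?_
  split_ifs with hm
  · simp [h m hm]
  · rfl

theorem repr_mono_mul (r : QuantumPlane k q) (p n : ℕ × ℕ) :
    basis.repr (mono k q p * r) n =
      (basis.repr r).sum (fun m c => if p + m = n then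
        c * ((q⁻¹ : kˣ) : k) ^ (p.2 * m.1) else 0) := by
  conv_lhs => rw [eq_sum r]
  rw [Finsupp.sum, Finset.mul_sum, map_sum, Finsupp.finsetSum_apply, Finsupp.sum]
  refine Finset.sum_congr rfl fun m _ => ?_
  rw [mul_smul_comm, mono_mul_mono, map_smul, map_smul, repr_mono]
  simp only [Finsupp.smul_apply, Finsupp.single_apply, smul_eq_mul]
  split_ifs <;> simp

theorem repr_mono_mul_add (r : QuantumPlane k q) (p m : ℕ × ℕ) :
    basis.repr (mono k q p * r) (p + m) = basis.repr r m * ((q⁻¹ : kˣ) : k) ^ (p.2 * m.1) := by
  rw [repr_mono_mul, Finsupp.sum, Finset.sum_eq_single m]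
  · rw [if_pos rfl]
  · intro b _ hb
    rw [if_neg]
    intro h
    exact hb (add_left_cancel h)
  · intro h
    rw [Finsupp.notMem_support_iff] at h
    simp [h]

theorem repr_mono_mul_eq_zero (r : QuantumPlane k q) (p n : ℕ × ℕ)
    (h : ∀ m, p + m = n → basis.repr r m = 0) : basis.repr (mono k q p * r) n = 0 := by
  rw [repr_mono_mul, Finsupp.sum]
  refine Finset.sum_eq_zero fun m _ => ?_
  split_ifs with hm
  · simp [h m hm]
  · rfl

theorem X_eq_mono : X k q = mono k q (1, 0) := by simp [mono]

theorem Y_eq_mono : Y k q = mono k q (0, 1) := by simp [mono]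

section Injective

variable {T : Type v} [DivisionRing T] [Algebra k T]

theorem lift_mono (a b : T) (h : a * b = (q : k) • (b * a)) (p : ℕ × ℕ) :
    lift a b h (mono k q p) = a ^ p.1 * b ^ p.2 := by
  simp [mono]

theorem pow_inj_of_not_root {q : kˣ} (hq : ∀ n : ℕ, 0 < n → q ^ n ≠ 1) {i j : ℕ}
    (h : ((q⁻¹ : kˣ) : k) ^ i = ((q⁻¹ : kˣ) : k) ^ j) : i = j := by
  have h1 : (q⁻¹ : kˣ) ^ i = (q⁻¹ : kˣ) ^ j := by
    apply Units.ext
    simp only [Units.val_pow_eq_pow_val]
    exact h
  have h2 : q ^ i = q ^ j := by
    rw [inv_pow, inv_pow] at h1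
    exact inv_injective h1
  wlog hij : i ≤ j generalizing i j
  · exact (this h.symm h1.symm h2.symm (by omega)).symm
  by_contra hne
  have : q ^ (j - i) = 1 := by
    have h3 : q ^ j = q ^ i * q ^ (j - i) := by rw [← pow_add]; congr 1; omega
    rw [h3] at h2
    exact (mul_eq_left.mp h2.symm)
  exact hq (j - i) (by omega) this

theorem lift_injective (hq : ∀ n : ℕ, 0 < n → q ^ n ≠ 1) (a b : T) (ha : a ≠ 0) (hb : b ≠ 0)
    (h : a * b = (q : k) • (b * a)) : Function.Injective (lift a b h) := by
  rw [injective_iff_map_eq_zero]
  have key : ∀ n : ℕ, ∀ r : QuantumPlane k q, (basis.repr r).support.card ≤ n →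
      lift a b h r = 0 → r = 0 := by
    intro n
    induction n with
    | zero =>
      intro r hr _
      have : (basis.repr r).support = ∅ := by
        rw [← Finset.card_eq_zero]; omega
      rw [Finsupp.support_eq_empty] at this
      simpa using this
    | succ n ih =>
      intro r hr h0
      by_contra hne
      have hs : (basis.repr r).support.Nonempty := by
        rw [Finsupp.support_nonempty_iff]
        intro h
        exact hne (by simpa using h)
      obtain ⟨p0, hp0⟩ := hs
      -- the commutator with `x`
      have hX : X k q * r - (((q⁻¹ : kˣ) : k) ^ p0.2)⁻¹ • (r * X k q) = 0 := by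
        apply ih
        · have hsub : (basis.repr (X k q * r - (((q⁻¹ : kˣ) : k) ^ p0.2)⁻¹ •
              (r * X k q))).support ⊆
              ((basis.repr r).support.erase p0).image (fun m => m + (1, 0)) := by
            intro n hn
            rw [Finsupp.mem_support_iff] at hn
            rw [Finset.mem_image]
            by_contra hcon
            push Not at hcon
            apply hn
            rw [map_sub, map_smul, Finsupp.sub_apply, Finsupp.smul_apply, X_eq_mono]
            by_cases hm : ∃ m, m + (1, 0) = n
            · obtain ⟨m, rfl⟩ := hm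
              rw [repr_mul_mono_add, add_comm m, repr_mono_mul_add]
              by_cases hmp : m = p0
              · subst hmp
                have : ((q⁻¹ : kˣ) : k) ^ m.2 ≠ 0 := pow_ne_zero _ (Units.ne_zero _)
                simp only [zero_mul, pow_zero, mul_one, smul_eq_mul]
                field_simp
                ring
              · have hm0 : basis.repr r m = 0 := by
                  by_contra hm1
                  exact hcon m (Finset.mem_erase.mpr ⟨hmp, Finsupp.mem_support_iff.mpr hm1⟩) rfl
                simp [hm0]
            · push Not at hm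
              rw [repr_mono_mul_eq_zero _ _ _ (fun m hm' => absurd (by rw [add_comm, hm']) (hm m)),
                repr_mul_mono_eq_zero _ _ _ (fun m hm' => absurd hm' (hm m))]
              simp
          have hcard := (Finset.card_le_card hsub).trans Finset.card_image_le
          rw [Finset.card_erase_of_mem hp0] at hcard
          omega
        · rw [map_sub, map_smul, map_mul, map_mul, h0]
          simp
      have hY : r * Y k q - (((q⁻¹ : kˣ) : k) ^ p0.1)⁻¹ • (Y k q * r) = 0 := by
        apply ih
        · have hsub : (basis.repr (r * Y k q - (((q⁻¹ : kˣ) : k) ^ p0.1)⁻¹ •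
              (Y k q * r))).support ⊆
              ((basis.repr r).support.erase p0).image (fun m => m + (0, 1)) := by
            intro n hn
            rw [Finsupp.mem_support_iff] at hn
            rw [Finset.mem_image]
            by_contra hcon
            push Not at hcon
            apply hn
            rw [map_sub, map_smul, Finsupp.sub_apply, Finsupp.smul_apply, Y_eq_mono]
            by_cases hm : ∃ m, m + (0, 1) = n
            · obtain ⟨m, rfl⟩ := hm
              rw [repr_mul_mono_add, add_comm m, repr_mono_mul_add]
              by_cases hmp : m = p0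
              · subst hmp
                have : ((q⁻¹ : kˣ) : k) ^ m.1 ≠ 0 := pow_ne_zero _ (Units.ne_zero _)
                simp only [mul_zero, pow_zero, mul_one, smul_eq_mul, one_mul]
                field_simp
                ring
              · have hm0 : basis.repr r m = 0 := by
                  by_contra hm1
                  exact hcon m (Finset.mem_erase.mpr ⟨hmp, Finsupp.mem_support_iff.mpr hm1⟩) rfl
                simp [hm0]
            · push Not at hm
              rw [repr_mono_mul_eq_zero _ _ _ (fun m hm' => absurd (by rw [add_comm, hm']) (hm m)),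
                repr_mul_mono_eq_zero _ _ _ (fun m hm' => absurd hm' (hm m))]
              simp
          have hcard := (Finset.card_le_card hsub).trans Finset.card_image_le
          rw [Finset.card_erase_of_mem hp0] at hcard
          omega
        · rw [map_sub, map_smul, map_mul, map_mul, h0]
          simp
      -- hence the support of `r` is a single point
      have hsupp : ∀ m, basis.repr r m ≠ 0 → m = p0 := by
        intro m hm
        have h1 := congrArg (fun t => basis.repr t ((1, 0) + m)) hX
        have h2 := congrArg (fun t => basis.repr t ((0, 1) + m)) hY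
        simp only [map_sub, map_smul, Finsupp.sub_apply, Finsupp.smul_apply, map_zero,
          Finsupp.coe_zero, Pi.zero_apply, X_eq_mono, Y_eq_mono] at h1 h2
        rw [repr_mono_mul_add, add_comm _ m, repr_mul_mono_add] at h1
        rw [repr_mono_mul_add, add_comm _ m, repr_mul_mono_add] at h2
        simp only [zero_mul, pow_zero, mul_one, smul_eq_mul, mul_zero, one_mul] at h1 h2
        have hp2 : ((q⁻¹ : kˣ) : k) ^ p0.2 ≠ 0 := pow_ne_zero _ (Units.ne_zero _)
        have hp1 : ((q⁻¹ : kˣ) : k) ^ p0.1 ≠ 0 := pow_ne_zero _ (Units.ne_zero _)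
        have e2 : ((q⁻¹ : kˣ) : k) ^ p0.2 = ((q⁻¹ : kˣ) : k) ^ m.2 := by
          have h1' := (sub_eq_zero.mp h1).symm
          rw [inv_mul_eq_iff_eq_mul₀ hp2] at h1'
          exact mul_left_cancel₀ hm (by linear_combination -h1')
        have e1 : ((q⁻¹ : kˣ) : k) ^ p0.1 = ((q⁻¹ : kˣ) : k) ^ m.1 := by
          have h2' := (sub_eq_zero.mp h2).symm
          rw [inv_mul_eq_iff_eq_mul₀ hp1] at h2'
          exact mul_left_cancel₀ hm (by linear_combination -h2')
        exact Prod.ext (pow_inj_of_not_root hq e1).symm (pow_inj_of_not_root hq e2).symm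
      have hr' : r = basis.repr r p0 • mono k q p0 := by
        conv_lhs => rw [eq_sum r]
        rw [Finsupp.sum, Finset.sum_eq_single_of_mem p0 hp0]
        intro m hm hmp
        exact absurd (hsupp m (Finsupp.mem_support_iff.mp hm)) hmp
      rw [hr', map_smul, lift_mono, smul_eq_zero] at h0
      rcases h0 with h0 | h0
      · exact Finsupp.mem_support_iff.mp hp0 h0
      · exact mul_ne_zero (pow_ne_zero _ ha) (pow_ne_zero _ hb) h0
  intro r hr
  exact key _ r le_rfl hr

end Injective

end QuantumPlane

namespace QDiv

open QuantumPlane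

variable {k : Type u} [Field k] {q : kˣ}

/-- The inclusion of the quantum plane in its division ring of fractions. -/
noncomputable def incl : QuantumPlane k q →ₐ[k] QDiv k q :=
  { (OreLocalization.numeratorRingHom :
      QuantumPlane k q →+* QDiv k q) with
    commutes' := fun _ => rfl }

theorem incl_injective : Function.Injective (incl : QuantumPlane k q → QDiv k q) :=
  OreLocalization.numeratorHom_inj (by
    intro s hs
    exact hs.1)

theorem incl_ne_zero {r : QuantumPlane k q} (hr : r ≠ 0) : incl r ≠ 0 := by
  intro h
  exact hr (incl_injective (by rw [h, map_zero]))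

variable (k q) in
/-- The element `x` of `k_q(x,y)`. -/
noncomputable def x : QDiv k q := incl (X k q)

variable (k q) in
/-- The element `y` of `k_q(x,y)`. -/
noncomputable def y : QDiv k q := incl (Y k q)

theorem X_ne_zero : X k q ≠ 0 := by
  rw [X_eq_mono, ← basis_apply]
  exact basis.ne_zero _

theorem Y_ne_zero : Y k q ≠ 0 := by
  rw [Y_eq_mono, ← basis_apply]
  exact basis.ne_zero _

theorem x_ne_zero : x k q ≠ 0 := incl_ne_zero X_ne_zero

theorem y_ne_zero : y k q ≠ 0 := incl_ne_zero Y_ne_zero

theorem x_mul_y : x k q * y k q = (q : k) • (y k q * x k q) := by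
  unfold x y
  rw [← map_mul, X_mul_Y, map_smul, map_mul]

theorem exists_frac (d : QDiv k q) : ∃ (s r : QuantumPlane k q), s ≠ 0 ∧ incl s * d = incl r := by
  induction d using OreLocalization.ind with
  | _ r s =>
    refine ⟨s, r, nonZeroDivisors.coe_ne_zero s, ?_⟩
    exact OreLocalization.mul_cancel

theorem exists_frac' (d : QDiv k q) :
    ∃ (s r : QuantumPlane k q), s ≠ 0 ∧ d = (incl s)⁻¹ * incl r := by
  obtain ⟨s, r, hs, h⟩ := exists_frac d
  refine ⟨s, r, hs, ?_⟩
  rw [← h, ← mul_assoc, inv_mul_cancel₀ (incl_ne_zero hs), one_mul]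

/-- Finitely many elements have a common left denominator. -/
theorem exists_common (ι : Type*) [Fintype ι] (c : ι → QDiv k q) :
    ∃ s : QuantumPlane k q, s ≠ 0 ∧ ∃ r : ι → QuantumPlane k q, ∀ i, incl s * c i = incl (r i) := by
  classical
  have key : ∀ t : Finset ι, ∃ s : QuantumPlane k q, s ≠ 0 ∧
      ∀ i ∈ t, ∃ r : QuantumPlane k q, incl s * c i = incl r := by
    intro t
    induction t using Finset.induction_on with
    | empty => exact ⟨1, one_ne_zero, by simp⟩
    | insert a t ha ih =>
      obtain ⟨s, hs, h⟩ := ih
      obtain ⟨s', r', hs', h'⟩ := exists_frac (incl s * c a)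
      refine ⟨s' * s, mul_ne_zero hs' hs, fun i hi => ?_⟩
      rcases Finset.mem_insert.mp hi with rfl | hi
      · exact ⟨r', by rw [map_mul, mul_assoc, h']⟩
      · obtain ⟨r, hr⟩ := h i hi
        exact ⟨s' * r, by rw [map_mul, mul_assoc, hr, map_mul]⟩
  obtain ⟨s, hs, h⟩ := key Finset.univ
  choose r hr using fun i => h i (Finset.mem_univ i)
  exact ⟨s, hs, r, hr⟩

section Lift

variable {T : Type v} [DivisionRing T] [Algebra k T]

/-- The universal property of `k_q(x,y)`, when `q` is not a root of unity. -/
noncomputable def lift (hq : ∀ n : ℕ, 0 < n → q ^ n ≠ 1) (a b : T) (ha : a ≠ 0) (hb : b ≠ 0)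
    (h : a * b = (q : k) • (b * a)) : QDiv k q →ₐ[k] T :=
  { (OreLocalization.universalHom
      ((QuantumPlane.lift a b h : QuantumPlane k q →ₐ[k] T) : QuantumPlane k q →+* T)
      { toFun := fun s => Units.mk0 (QuantumPlane.lift a b h (s : QuantumPlane k q)) (by
          intro h0
          have := lift_injective hq a b ha hb h (h0.trans (map_zero _).symm)
          exact nonZeroDivisors.coe_ne_zero s this)
        map_one' := by ext; simp
        map_mul' := by intro s t; ext; simp }
      (fun s => rfl) : QDiv k q →+* T) with
    commutes' := by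
      intro c
      have := OreLocalization.universalHom_commutes
        ((QuantumPlane.lift a b h : QuantumPlane k q →ₐ[k] T) : QuantumPlane k q →+* T)
        { toFun := fun s => Units.mk0 (QuantumPlane.lift a b h (s : QuantumPlane k q)) (by
            intro h0
            have := lift_injective hq a b ha hb h (h0.trans (map_zero _).symm)
            exact nonZeroDivisors.coe_ne_zero s this)
          map_one' := by ext; simp
          map_mul' := by intro s t; ext; simp }
        (fun s => rfl) (r := algebraMap k _ c)
      refine Eq.trans this ?_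
      exact AlgHom.commutes (QuantumPlane.lift a b h : QuantumPlane k q →ₐ[k] T) c }

theorem lift_incl (hq : ∀ n : ℕ, 0 < n → q ^ n ≠ 1) (a b : T) (ha : a ≠ 0) (hb : b ≠ 0)
    (h : a * b = (q : k) • (b * a)) (r : QuantumPlane k q) :
    lift hq a b ha hb h (incl r) = QuantumPlane.lift a b h r :=
  OreLocalization.universalHom_commutes
        ((QuantumPlane.lift a b h : QuantumPlane k q →ₐ[k] T) : QuantumPlane k q →+* T) _ _

@[simp] theorem lift_x (hq : ∀ n : ℕ, 0 < n → q ^ n ≠ 1) (a b : T) (ha : a ≠ 0) (hb : b ≠ 0)
    (h : a * b = (q : k) • (b * a)) : lift hq a b ha hb h (x k q) = a := by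
  rw [x, lift_incl, QuantumPlane.lift_X]

@[simp] theorem lift_y (hq : ∀ n : ℕ, 0 < n → q ^ n ≠ 1) (a b : T) (ha : a ≠ 0) (hb : b ≠ 0)
    (h : a * b = (q : k) • (b * a)) : lift hq a b ha hb h (y k q) = b := by
  rw [y, lift_incl, QuantumPlane.lift_Y]

/-- Two algebra homomorphisms to a division ring agreeing on `x` and `y` are equal. -/
theorem algHom_ext {f g : QDiv k q →ₐ[k] T} (hx : f (x k q) = g (x k q))
    (hy : f (y k q) = g (y k q)) : f = g := by
  have h1 : f.comp incl = g.comp incl := QuantumPlane.algHom_ext hx hy
  apply AlgHom.ext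
  intro d
  obtain ⟨s, r, hs, rfl⟩ := exists_frac' d
  rw [map_mul, map_mul, map_inv₀, map_inv₀]
  have e1 := AlgHom.congr_fun h1 s
  have e2 := AlgHom.congr_fun h1 r
  simp only [AlgHom.comp_apply] at e1 e2
  rw [e1, e2]

end Lift

end QDiv

end Pool.Agent.Helper42
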