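import Mathlib
import Pool.Agent.Helper42.QDiv

/-! The algebraic core: five elements permuted cyclically by an automorphism of order five. -/

universe u v

open scoped nonZeroDivisors

set_option linter.unusedSimpArgs false

namespace Pool.Agent.Helper42.Lyness

variable {k : Type u} [Field k] {D : Type v} [DivisionRing D] [Algebra k D]

/-- First relation, from the two ways of computing `a0 a1 a3`. -/
theorem rel_one (Q : k) (a0 a1 a2 a3 a4 G0 G1 G2 G3 G4 : D)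
    (h01 : a0 * a1 = G0 * a0 + G1 * a1 + G2 * a2 + G3 * a3 + G4 * a4)
    (h23 : a2 * a3 = G0 * a2 + G1 * a3 + G2 * a4 + G3 * a0 + G4 * a1)
    (h34 : a3 * a4 = G0 * a3 + G1 * a4 + G2 * a0 + G3 * a1 + G4 * a2)
    (h43 : a4 * a3 = Q • (a3 * a4))
    (h02 : a0 * a2 = a1 + Q • (1 : D))
    (h13 : a1 * a3 = a2 + Q • (1 : D))
    (h03 : a0 * a3 = Q • (a4 + 1)) :
    (-(Q • (1 : D)) + (G2 - G3) * G3 + Q • ((G4 - G3) * G2)) * a0
    + (-(1 : D) + (G2 - G3) * G4 + Q • ((G4 - G3) * G3)) * a1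
    + ((G2 - G3) * G0 + Q • ((G4 - G3) * G4) + (G1 - G3)) * a2
    + ((G2 - G3) * G1 + Q • ((G4 - G3) * G0) + G3 * (a0 + a1 + a2 + a3 + a4)) * a3
    + ((G2 - G3) * G2 + Q • ((G4 - G3) * G1) + Q • (G0 - G3)) * a4
    + Q • (G0 + G1 - 2 • G3 - 1) = 0 := by
  have key : (a0 * a1) * a3 = a0 * (a1 * a3) := mul_assoc _ _ _
  rw [h01, h13, mul_add, h02] at key
  have e33 : a3 * a3 = (a0 + a1 + a2 + a3 + a4) * a3 - Q • (a4 + 1) - (a2 + Q • (1 : D))
      - (G0 * a2 + G1 * a3 + G2 * a4 + G3 * a0 + G4 * a1)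
      - Q • (G0 * a3 + G1 * a4 + G2 * a0 + G3 * a1 + G4 * a2) := by
    rw [← h34, ← h43, ← h23, ← h13, ← h03]
    noncomm_ring
  have key2 : G0 * (a0 * a3) + G1 * (a1 * a3) + G2 * (a2 * a3) + G3 * (a3 * a3) + G4 * (a4 * a3)
      = a1 + Q • (1 : D) + a0 * Q • (1 : D) := by
    rw [← key]
    simp only [add_mul, mul_assoc]
  rw [h03, h13, h23, e33, h43, h34] at key2
  rw [← sub_eq_zero] at key2
  rw [← key2]
  simp only [mul_add, add_mul, mul_sub, sub_mul, smul_mul_assoc, mul_smul_comm, mul_assoc,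
    smul_add, smul_sub, mul_one, one_mul, neg_mul, mul_neg, smul_neg, smul_smul]
  module

/-- Second relation, from the two ways of computing `a0 a1 a4`. -/
theorem rel_two (Q : k) (a0 a1 a2 a3 a4 G0 G1 G2 G3 G4 : D)
    (h01 : a0 * a1 = G0 * a0 + G1 * a1 + G2 * a2 + G3 * a3 + G4 * a4)
    (h34 : a3 * a4 = G0 * a3 + G1 * a4 + G2 * a0 + G3 * a1 + G4 * a2)
    (h40 : a4 * a0 = G0 * a4 + G1 * a0 + G2 * a1 + G3 * a2 + G4 * a3)
    (h10 : a1 * a0 = Q • (a0 * a1))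
    (h04 : a0 * a4 = Q • (a4 * a0))
    (h24 : a2 * a4 = a3 + Q • (1 : D))
    (h30 : a3 * a0 = a4 + Q • (1 : D))
    (h20 : a2 * a0 = Q • (a1 + 1))
    (h14 : a1 * a4 = Q • (a0 + 1)) :
    (Q • ((G0 - G4) * G1) + (G3 - G4) * G2 + Q • (G1 - G4) - Q • (1 : D)
      - Q • (a0 + a1 + a2 + a3 + a4) + (Q * Q) • G0 + Q • G1) * a0
    + (Q • ((G0 - G4) * G2) + (G3 - G4) * G3 + (Q * Q) • G1 + Q • G2 + (Q * Q) • (1 : D)) * a1
    + (Q • ((G0 - G4) * G3) + (G3 - G4) * G4 + (Q * Q) • G2 + Q • G3) * a2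
    + (Q • ((G0 - G4) * G4) + (G3 - G4) * G0 + (G2 - G4) + (Q * Q) • G3 + Q • G4) * a3
    + (Q • ((G0 - G4) * G0) + (G3 - G4) * G1 + G4 * (a0 + a1 + a2 + a3 + a4) + (Q * Q) • G4
      + Q • G0 + Q • (1 : D)) * a4
    + (Q • (G1 - G4) + Q • (G2 - G4) + (2 * (Q * Q)) • (1 : D)) = 0 := by
  have key : (a0 * a1) * a4 = a0 * (a1 * a4) := mul_assoc _ _ _
  rw [h01, h14, mul_smul_comm, mul_add, mul_one] at key
  have e00 : a0 * a0 = (a0 + a1 + a2 + a3 + a4) * a0
      - Q • (G0 * a0 + G1 * a1 + G2 * a2 + G3 * a3 + G4 * a4)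
      - Q • (a1 + 1) - (a4 + Q • (1 : D))
      - (G0 * a4 + G1 * a0 + G2 * a1 + G3 * a2 + G4 * a3) := by
    rw [← h01, ← h10, ← h20, ← h30, ← h40]
    noncomm_ring
  have e44 : a4 * a4 = (a0 + a1 + a2 + a3 + a4) * a4
      - Q • (G0 * a4 + G1 * a0 + G2 * a1 + G3 * a2 + G4 * a3)
      - Q • (a0 + 1) - (a3 + Q • (1 : D))
      - (G0 * a3 + G1 * a4 + G2 * a0 + G3 * a1 + G4 * a2) := by
    rw [← h40, ← h04, ← h14, ← h24, ← h34]
    noncomm_ring
  have key2 : G0 * (a0 * a4) + G1 * (a1 * a4) + G2 * (a2 * a4) + G3 * (a3 * a4) + G4 * (a4 * a4)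
      = Q • (a0 * a0 + a0) := by
    rw [← key]
    simp only [add_mul, mul_assoc]
  rw [h04, h40, h14, h24, h34, e44, e00] at key2
  rw [← sub_eq_zero] at key2
  rw [← key2]
  simp only [mul_add, add_mul, mul_sub, sub_mul, smul_mul_assoc, mul_smul_comm, mul_assoc,
    smul_add, smul_sub, mul_one, one_mul, neg_mul, mul_neg, smul_neg, smul_smul]
  module

section Consequences

variable (Q : k) (s G0 G1 G2 G3 G4 : D)

theorem rel_I
    (h : (-(Q • (1 : D)) + (G2 - G3) * G3 + Q • ((G4 - G3) * G2))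
      = (-(1 : D) + (G2 - G3) * G4 + Q • ((G4 - G3) * G3))) :
    Q • ((G3 - G4) * (G3 - G2) - 1) = (G3 - G2) * (G3 - G4) - 1 := by
  rw [← sub_eq_zero] at h ⊢
  rw [← h]
  simp only [mul_sub, sub_mul, smul_sub]
  module

theorem rel_A
    (h : (-(Q • (1 : D)) + (G2 - G3) * G3 + Q • ((G4 - G3) * G2))
      = ((G2 - G3) * G2 + Q • ((G4 - G3) * G1) + Q • (G0 - G3))) :
    Q • ((G3 - G4) * (G1 - G2)) = (G3 - G2) * (G3 - G2)
      + Q • (1 + (G0 - G4) - (G3 - G4)) := by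
  rw [← sub_eq_zero] at h ⊢
  rw [← h]
  simp only [mul_sub, sub_mul, smul_sub]
  module

theorem rel_B
    (h : (-(1 : D) + (G2 - G3) * G4 + Q • ((G4 - G3) * G3))
      = ((G2 - G3) * G0 + Q • ((G4 - G3) * G4) + (G1 - G3))) :
    (G3 - G2) * (G0 - G4) = Q • ((G3 - G4) * (G3 - G4))
      + 1 + (G1 - G2) - (G3 - G2) := by
  rw [← sub_eq_zero] at h ⊢
  rw [← h]
  simp only [mul_sub, sub_mul, smul_sub]
  module

theorem rel_alpha
    (h : (-(Q • (1 : D)) + (G2 - G3) * G3 + Q • ((G4 - G3) * G2))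
      = ((G2 - G3) * G1 + Q • ((G4 - G3) * G0) + G3 * s)) :
    G3 * s = -(Q • (1 : D)) + (G3 - G2) * ((G1 - G2) - (G3 - G2))
      + Q • ((G3 - G4) * ((G0 - G4) - (G3 - G4) + (G3 - G2))) := by
  rw [← sub_eq_zero] at h ⊢
  rw [← neg_eq_zero, ← h]
  simp only [mul_add, mul_sub, sub_mul, smul_sub]
  module

theorem rel_s
    (h : (-(Q • (1 : D)) + (G2 - G3) * G3 + Q • ((G4 - G3) * G2)) * s
      + Q • (G0 + G1 - 2 • G3 - 1) = 0) :
    Q • ((1 - (G3 - G4) * (G3 - G2)) * s) =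
      Q • ((G0 - G4) - (G3 - G4) + (G1 - G2) - (G3 - G2) - 1)
      - ((G3 - G2) + Q • (G3 - G4)) * (G3 * s) := by
  rw [← sub_eq_zero, ← neg_eq_zero, ← h]
  simp only [mul_sub, sub_mul, smul_sub, add_mul, smul_mul_assoc, neg_mul, one_mul, mul_assoc]
  module

theorem rel_C
    (h : (Q • ((G0 - G4) * G2) + (G3 - G4) * G3 + (Q * Q) • G1 + Q • G2 + (Q * Q) • (1 : D))
      = (Q • ((G0 - G4) * G3) + (G3 - G4) * G4 + (Q * Q) • G2 + Q • G3)) :
    Q • ((G0 - G4) * (G3 - G2)) = (G3 - G4) * (G3 - G4) + (Q * Q) • (G1 - G2)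
      - Q • (G3 - G2) + (Q * Q) • (1 : D) := by
  rw [← sub_eq_zero] at h ⊢
  rw [← neg_eq_zero, ← h]
  simp only [mul_sub, sub_mul, smul_sub]
  module

theorem rel_D
    (h : (Q • ((G0 - G4) * G3) + (G3 - G4) * G4 + (Q * Q) • G2 + Q • G3)
      = (Q • ((G0 - G4) * G4) + (G3 - G4) * G0 + (G2 - G4) + (Q * Q) • G3 + Q • G4)) :
    Q • ((G0 - G4) * (G3 - G4)) = (G3 - G4) * (G0 - G4) + (Q * Q) • (G3 - G2)
      - Q • (G3 - G4) + ((G3 - G4) - (G3 - G2)) := by
  rw [← sub_eq_zero] at h ⊢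
  rw [← h]
  simp only [mul_sub, sub_mul, smul_sub]
  module

end Consequences

theorem L1_eq (q Q : k) (hqQ : q * Q = 1) (X Y L1 L4 : D)
    (hA : Q • (X * L4) = Y * Y + Q • (1 + L1 - X)) :
    L1 = X * L4 - q • (Y * Y) - 1 + X := by
  have e1 : q • (Q • (X * L4)) = q • (Y * Y + Q • (1 + L1 - X)) := by rw [hA]
  rw [smul_smul, hqQ, one_smul, smul_add, smul_smul, hqQ, one_smul] at e1
  rw [e1]
  abel

theorem L4_eq (q Q : k) (hqQ : q * Q = 1) (X Y L1 L4 : D)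
    (hA : Q • (X * L4) = Y * Y + Q • (1 + L1 - X))
    (hB : Y * L1 = Q • (X * X) + 1 + L4 - Y) :
    (Y * X - 1) * L4 = Q • (X * X) + q • (Y * (Y * Y)) - (Y * X - 1) := by
  have e1 : Y * (q • (Q • (X * L4))) = Y * (q • (Y * Y + Q • (1 + L1 - X))) := by rw [hA]
  rw [smul_smul, hqQ, one_smul, smul_add, smul_smul, hqQ, one_smul, ← mul_assoc,
    mul_add, mul_sub, mul_add, hB, mul_one, mul_smul_comm] at e1
  rw [sub_mul, one_mul, e1]
  abel

/-- The degenerate case `Y X = 1` is impossible. -/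
theorem nondegenerate (q Q : k) (hqQ : q * Q = 1) (hq5 : q ^ 5 ≠ 1) (X Y L1 L4 : D)
    (hI : Q • (X * Y - 1) = Y * X - 1)
    (hA : Q • (X * L4) = Y * Y + Q • (1 + L1 - X))
    (hB : Y * L1 = Q • (X * X) + 1 + L4 - Y)
    (hC : Q • (L1 * Y) = X * X + (Q * Q) • L4 - Q • Y + (Q * Q) • (1 : D))
    (hD : Q • (L1 * X) = X * L1 + (Q * Q) • Y - Q • X + (X - Y)) :
    Y * X ≠ 1 := by
  intro hYX
  have hQ0 : Q ≠ 0 := right_ne_zero_of_mul_eq_one hqQ
  have hq0 : q ≠ 0 := left_ne_zero_of_mul_eq_one hqQ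
  have hXY : X * Y = 1 := by
    rw [hYX, sub_self, smul_eq_zero] at hI
    rcases hI with h | h
    · exact absurd h hQ0
    · exact sub_eq_zero.mp h
  have hY0 : Y ≠ 0 := left_ne_zero_of_mul_eq_one hYX
  have hX0 : X ≠ 0 := left_ne_zero_of_mul_eq_one hXY
  -- `Q X^2 = - q Y^3`
  have h2 : Q • (X * X) = -(q • (Y * (Y * Y))) := by
    -- multiply hA on the left by `q Y`
    have e1 : Y * (q • (Q • (X * L4))) = Y * (q • (Y * Y + Q • (1 + L1 - X))) := by rw [hA]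
    rw [smul_smul, hqQ, one_smul, smul_add, smul_smul, hqQ, one_smul, ← mul_assoc, hYX, one_mul,
      mul_add, mul_sub, mul_add, hYX, hB, mul_one, mul_smul_comm] at e1
    have e2 : L4 - (q • (Y * (Y * Y)) + (Y + (Q • (X * X) + 1 + L4 - Y) - 1)) = 0 :=
      sub_eq_zero.mpr e1
    have e3 : Q • (X * X) + q • (Y * (Y * Y)) = 0 := by
      rw [← neg_eq_zero, ← e2]
      abel
    exact eq_neg_of_add_eq_zero_left e3
  -- `X^5 = - q^2`
  have hcomm : Commute X Y := by rw [commute_iff_eq, hXY, hYX]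
  have h2' : X * X = -((q * q) • (Y * (Y * Y))) := by
    have : q • (Q • (X * X)) = q • (-(q • (Y * (Y * Y)))) := by rw [h2]
    rw [smul_smul, hqQ, one_smul, smul_neg, smul_smul] at this
    exact this
  have h5 : X * (X * (X * (X * X))) = -((q * q) • (1 : D)) := by
    rw [h2', mul_neg, mul_smul_comm, mul_neg, mul_smul_comm, mul_neg, mul_smul_comm]
    have a1 : X * (Y * (Y * Y)) = Y * Y := by rw [← mul_assoc, hXY, one_mul]
    have a2 : X * (Y * Y) = Y := by rw [← mul_assoc, hXY, one_mul]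
    rw [a1, a2, hXY]
  -- `L' X = q X L'`
  set L' : D := L1 + 1 - (1 + Q) • (Y * Y) with hL'
  have hL'X : L' * X = q • (X * L') := by
    have hYYX : Y * Y * X = Y := by rw [mul_assoc, hYX, mul_one]
    have hXYY : X * (Y * Y) = Y := by rw [← mul_assoc, hXY, one_mul]
    have e1 : L1 * X = q • (X * L1) + Q • Y - X + q • (X - Y) := by
      have : q • (Q • (L1 * X)) = q • (X * L1 + (Q * Q) • Y - Q • X + (X - Y)) := by rw [hD]
      rw [smul_smul, hqQ, one_smul, smul_add, smul_sub, smul_add, smul_smul, smul_smul, hqQ,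
        one_smul, ← mul_assoc, hqQ, one_mul] at this
      exact this
    rw [hL', sub_mul, add_mul, smul_mul_assoc, hYYX, mul_sub, mul_add, mul_smul_comm, hXYY, e1,
      one_mul, mul_one, ← sub_eq_zero]
    have e2 : (q * Q) • Y = (1 : k) • Y := by rw [hqQ]
    have e3 : q • (X * L1) + Q • Y - X + q • (X - Y) + X - (1 + Q) • Y -
        q • (X * L1 + X - (1 + Q) • Y) = (q * Q) • Y - (1 : k) • Y := by
      simp only [smul_sub, smul_add, add_smul, one_smul, mul_smul]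
      module
    rw [e3, e2, sub_self]
  have hL'0 : L' = 0 := by
    have step : ∀ n : ℕ, L' * X ^ n = (q ^ n) • (X ^ n * L') := by
      intro n
      induction n with
      | zero => simp
      | succ n ih =>
        rw [pow_succ, ← mul_assoc, ih, smul_mul_assoc, mul_assoc, hL'X, mul_smul_comm, smul_smul,
          ← mul_assoc, pow_succ]
    have h5' : X ^ 5 = -((q * q) • (1 : D)) := by
      rw [← h5]
      simp only [pow_succ, pow_zero, one_mul, mul_assoc]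
    have e := step 5
    rw [h5', mul_neg, neg_mul, mul_smul_comm, smul_mul_assoc, mul_one, one_mul, smul_neg,
      neg_inj, smul_smul, ← sub_eq_zero, ← sub_smul, smul_eq_zero] at e
    rcases e with e | e
    · exfalso
      have : q * q * (1 - q ^ 5) = 0 := by linear_combination e
      rcases mul_eq_zero.mp this with h | h
      · exact mul_ne_zero hq0 hq0 h
      · exact hq5 (sub_eq_zero.mp h).symm
    · exact e
  have hL1 : L1 = (1 + Q) • (Y * Y) - 1 := by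
    have : L1 - ((1 + Q) • (Y * Y) - 1) = L' := by rw [hL']; abel
    rw [hL'0] at this
    exact sub_eq_zero.mp this
  have hL4 : L4 = (1 + Q) • (Y * (Y * Y)) + q • (Y * (Y * Y)) - 1 := by
    have e : L4 = Y * L1 - Q • (X * X) - 1 + Y := by rw [hB]; abel
    rw [e, h2, hL1, mul_sub, mul_smul_comm, mul_one]
    abel
  rw [hL1, hL4, h2', sub_mul, smul_mul_assoc, one_mul, mul_assoc] at hC
  have hfin : (Q * Q - q * q * q * (q * Q)) • (Y * (Y * Y)) = 0 := by
    rw [← sub_eq_zero] at hC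
    have e1 : Q • ((1 + Q) • (Y * (Y * Y)) - Y) - (-((q * q) • (Y * (Y * Y)))
        + (Q * Q) • ((1 + Q) • (Y * (Y * Y)) + q • (Y * (Y * Y)) - 1)
        - Q • Y + (Q * Q) • (1 : D))
        = (Q + Q * Q + q * q - Q * Q - Q * Q * Q - Q * (q * Q)) • (Y * (Y * Y)) := by
      module
    rw [e1, hqQ] at hC
    have e2 : (Q + Q * Q + q * q - Q * Q - Q * Q * Q - Q * 1) = q * q - Q * Q * Q := by ring
    rw [e2] at hC
    have e3 : (Q * Q - q * q * q * (q * Q)) = -(q * (q * q - Q * Q * Q)) := by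
      linear_combination (-(Q * Q)) * hqQ + (-(q * q * q)) * hqQ
    rw [e3, neg_smul, mul_smul, hC, smul_zero, neg_zero]
  rw [smul_eq_zero] at hfin
  rcases hfin with h | h
  · apply hq5
    have e1 : Q * Q = q * q * q := by
      rw [hqQ, mul_one] at h
      exact sub_eq_zero.mp h
    calc q ^ 5 = q * q * (q * q * q) := by ring
      _ = (q * Q) * (q * Q) := by rw [← e1]; ring
      _ = 1 := by rw [hqQ, one_mul]
  · exact mul_ne_zero hY0 (mul_ne_zero hY0 hY0) h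

end Pool.Agent.Helper42.Lyness
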