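import Mathlib
import Pool.Agent.Helper42.QDiv
import Pool.Agent.Helper42.LynessCore

/-! The fixed ring of a cyclic automorphism of order five, abstract form. -/

universe u v

open scoped nonZeroDivisors

namespace Pool.Agent.Helper42.Lyness

variable {k : Type u} [Field k] {D : Type v} [DivisionRing D] [Algebra k D]

/-- The subalgebra of elements fixed by an automorphism. -/
def fixedSubalgebra (π : D ≃ₐ[k] D) : Subalgebra k D where
  carrier := {d | π d = d}
  mul_mem' := by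
    intro a b ha hb
    simp only [Set.mem_ofPred_eq] at *
    rw [map_mul, ha, hb]
  add_mem' := by
    intro a b ha hb
    simp only [Set.mem_ofPred_eq] at *
    rw [map_add, ha, hb]
  algebraMap_mem' := by
    intro c
    simp

theorem mem_fixedSubalgebra {π : D ≃ₐ[k] D} {d : D} : d ∈ fixedSubalgebra π ↔ π d = d := Iff.rfl

/-- Right multiplication by a nonzero element preserving a finite dimensional left subspace is
surjective on it. -/
theorem right_mul_surj {K : Type u} [DivisionRing K] (Φ : K →+* D) (b : Fin 5 → D)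
    (t : D) (ht : t ≠ 0)
    (h : ∀ i, ∃ c : Fin 5 → K, b i * t = ∑ j, Φ (c j) * b j) (c : Fin 5 → K) :
    ∃ c' : Fin 5 → K, (∑ j, Φ (c' j) * b j) * t = ∑ j, Φ (c j) * b j := by
  let _ : Module K D := Module.compHom D Φ
  have smul_def : ∀ (x : K) (d : D), x • d = Φ x * d := fun _ _ => rfl
  let V : Submodule K D := Submodule.span K (Set.range b)
  have hfin : Module.Finite K V := Module.Finite.span_of_finite K (Set.finite_range _)
  let μ : D →ₗ[K] D :=
    { toFun := fun d => d * t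
      map_add' := fun x y => add_mul _ _ _
      map_smul' := fun x y => by
        simp only [smul_def, RingHom.id_apply, mul_assoc] }
  have hV : ∀ v ∈ V, μ v ∈ V := by
    intro v hv
    have : V ≤ V.comap μ := by
      rw [Submodule.span_le]
      rintro _ ⟨i, rfl⟩
      obtain ⟨c, hc⟩ := h i
      change b i * t ∈ V
      rw [hc]
      refine Submodule.sum_mem _ fun j _ => ?_
      rw [← smul_def]
      exact Submodule.smul_mem _ _ (Submodule.subset_span ⟨j, rfl⟩)
    exact this hv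
  let μV : V →ₗ[K] V := μ.restrict hV
  have hinj : Function.Injective μV := by
    intro v w hvw
    have := congrArg Subtype.val hvw
    have h2 : (v : D) * t = (w : D) * t := this
    exact Subtype.ext (mul_right_cancel₀ ht h2)
  have hsurj : Function.Surjective μV := LinearMap.injective_iff_surjective.mp hinj
  have hc : ∑ j, Φ (c j) * b j ∈ V := by
    refine Submodule.sum_mem _ fun j _ => ?_
    rw [← smul_def]
    exact Submodule.smul_mem _ _ (Submodule.subset_span ⟨j, rfl⟩)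
  obtain ⟨w, hw⟩ := hsurj ⟨_, hc⟩
  obtain ⟨c', hc'⟩ := (Submodule.mem_span_range_iff_exists_fun K).mp w.2
  refine ⟨c', ?_⟩
  have h1 : (w : D) * t = ∑ j, Φ (c j) * b j := congrArg Subtype.val hw
  rw [← h1, ← hc']
  rfl

section Main

variable (q : kˣ) (π : D ≃ₐ[k] D) (a : Fin 5 → D)

/-- The trace `a 0 + ... + a 4`. -/
def tr (a : Fin 5 → D) : D := a 0 + a 1 + a 2 + a 3 + a 4

variable {q π a}

theorem tr_eq (i : Fin 5) : ∑ m, a (i + m) = tr a := by
  rw [Fin.sum_univ_five, tr]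
  fin_cases i
  · rfl
  · change a 1 + a 2 + a 3 + a 4 + a 0 = _; abel
  · change a 2 + a 3 + a 4 + a 0 + a 1 = _; abel
  · change a 3 + a 4 + a 0 + a 1 + a 2 = _; abel
  · change a 4 + a 0 + a 1 + a 2 + a 3 = _; abel

theorem tr_fixed (hπ : ∀ i, π (a i) = a (i + 1)) : π (tr a) = tr a := by
  rw [tr, map_add, map_add, map_add, map_add, hπ, hπ, hπ, hπ, hπ]
  change a 1 + a 2 + a 3 + a 4 + a 0 = _
  abel

theorem tr_ne_zero (hind : ∀ c : Fin 5 → D, (∀ i, ∑ m, c m * a (i + m) = 0) → c = 0) :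
    tr a ≠ 0 := by
  intro h
  have h1 := hind (fun _ => 1) (fun i => by simp only [one_mul]; rw [tr_eq, h])
  exact one_ne_zero (congrFun h1 0)

/-- Comparison of coefficients. -/
theorem compare (hπ : ∀ i, π (a i) = a (i + 1))
    (hind : ∀ c : Fin 5 → D, (∀ i, ∑ m, c m * a (i + m) = 0) → c = 0)
    (c : Fin 5 → D) (e : D) (hc : ∀ i, π (c i) = c i) (he : π e = e)
    (h : ∑ m, c m * a m + e = 0) (i : Fin 5) : c i * tr a + e = 0 := by
  have htr := tr_ne_zero hind
  have h0 : ∑ m, (c m + e * (tr a)⁻¹) * a (0 + m) = 0 := by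
    simp only [zero_add, add_mul, Finset.sum_add_distrib]
    rw [← Finset.mul_sum]
    have := tr_eq (a := a) 0
    simp only [zero_add] at this
    rw [this, mul_assoc, inv_mul_cancel₀ htr, mul_one, h]
  have hstep : ∀ j : Fin 5, ∑ m, (c m + e * (tr a)⁻¹) * a (j + m) = 0 →
      ∑ m, (c m + e * (tr a)⁻¹) * a ((j + 1) + m) = 0 := by
    intro j hj
    have := congrArg π hj
    rw [map_sum, map_zero] at this
    rw [← this]
    refine Finset.sum_congr rfl fun m _ => ?_
    rw [map_mul, map_add, map_mul, map_inv₀, tr_fixed hπ, hc, he, hπ]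
    congr 2
    abel
  have h1 := hstep 0 h0
  have h2 := hstep _ h1
  have h3 := hstep _ h2
  have h4 := hstep _ h3
  have hall : ∀ j : Fin 5, ∑ m, (c m + e * (tr a)⁻¹) * a (j + m) = 0 := by
    intro j
    fin_cases j
    · exact h0
    · exact h1
    · exact h2
    · exact h3
    · exact h4
  have := congrFun (hind _ hall) i
  simp only [Pi.zero_apply] at this
  have h5 : (c i + e * (tr a)⁻¹) * tr a = 0 := by rw [this, zero_mul]
  rw [add_mul, mul_assoc, inv_mul_cancel₀ htr, mul_one] at h5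
  exact h5

theorem exists_G (hπ : ∀ i, π (a i) = a (i + 1))
    (hind : ∀ c : Fin 5 → D, (∀ i, ∑ m, c m * a (i + m) = 0) → c = 0) :
    ∃ G : Fin 5 → D, (∀ m, π (G m) = G m) ∧ ∀ i, a i * a (i + 1) = ∑ m, G m * a (i + m) := by
  have hli : LinearIndependent D (fun m : Fin 5 => (fun i => a (i + m) : Fin 5 → D)) := by
    rw [Fintype.linearIndependent_iff]
    intro g hg i
    have := hind g (fun i => by
      have h1 := congrFun hg i
      simpa [Finset.sum_apply] using h1)
    rw [this]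
    rfl
  have hspan := hli.span_eq_top_of_card_eq_finrank' (by simp)
  have hmem : (fun i => a i * a (i + 1) : Fin 5 → D) ∈
      Submodule.span D (Set.range (fun m : Fin 5 => (fun i => a (i + m) : Fin 5 → D))) := by
    rw [hspan]; trivial
  obtain ⟨G, hG⟩ := (Submodule.mem_span_range_iff_exists_fun D).mp hmem
  have hG' : ∀ i, ∑ m, G m * a (i + m) = a i * a (i + 1) := by
    intro i
    have := congrFun hG i
    simpa [Finset.sum_apply] using this
  refine ⟨G, ?_, fun i => (hG' i).symm⟩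
  have hz := hind (fun m => π (G m) - G m) (fun i => by
    simp only [sub_mul, Finset.sum_sub_distrib]
    rw [hG' i]
    have h1 := congrArg π (hG' (i - 1))
    rw [map_sum, map_mul, hπ, hπ] at h1
    have h2 : ∑ m, π (G m) * a (i + m) = a i * a (i + 1) := by
      have e1 : i - 1 + 1 = i := by abel
      rw [e1] at h1
      rw [← h1]
      refine Finset.sum_congr rfl fun m _ => ?_
      rw [map_mul, hπ]
      congr 2
      abel
    rw [h2, sub_self])
  intro m
  exact sub_eq_zero.mp (congrFun hz m)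

/-- The main theorem in abstract form. -/
theorem main (hq : ∀ n : ℕ, 0 < n → q ^ n ≠ 1) (hπ : ∀ i, π (a i) = a (i + 1))
    (h10 : a 1 * a 0 = ((q⁻¹ : kˣ) : k) • (a 0 * a 1))
    (h02 : a 0 * a 2 = a 1 + ((q⁻¹ : kˣ) : k) • (1 : D))
    (h20 : a 2 * a 0 = ((q⁻¹ : kˣ) : k) • (a 1 + 1))
    (hind : ∀ c : Fin 5 → D, (∀ i, ∑ m, c m * a (i + m) = 0) → c = 0)
    (hfrac : ∀ d : D, ∃ s ∈ Algebra.adjoin k {a 0, a 1}, ∃ r ∈ Algebra.adjoin k {a 0, a 1},
      s ≠ 0 ∧ s * d = r) :
    Nonempty (QDiv k q ≃ₐ[k] fixedSubalgebra π) := by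
  obtain ⟨G, hGfix, hG⟩ := exists_G hπ hind
  set Q : k := ((q⁻¹ : kˣ) : k) with hQ
  have hqQ : (q : k) * Q = 1 := by simp [hQ]
  have hQ0 : Q ≠ 0 := Units.ne_zero _
  have hπ0 : π (a 0) = a 1 := hπ 0
  have hπ1 : π (a 1) = a 2 := hπ 1
  have hπ2 : π (a 2) = a 3 := hπ 2
  have hπ3 : π (a 3) = a 4 := hπ 3
  have hπ4 : π (a 4) = a 0 := hπ 4
  -- the relations between the `a i`
  have h21 : a 2 * a 1 = Q • (a 1 * a 2) := by
    have := congrArg π h10; simpa only [map_mul, map_smul, hπ0, hπ1] using this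
  have h32 : a 3 * a 2 = Q • (a 2 * a 3) := by
    have := congrArg π h21; simpa only [map_mul, map_smul, hπ1, hπ2] using this
  have h43 : a 4 * a 3 = Q • (a 3 * a 4) := by
    have := congrArg π h32; simpa only [map_mul, map_smul, hπ2, hπ3] using this
  have h04 : a 0 * a 4 = Q • (a 4 * a 0) := by
    have := congrArg π h43; simpa only [map_mul, map_smul, hπ3, hπ4] using this
  have h13 : a 1 * a 3 = a 2 + Q • (1 : D) := by
    have := congrArg π h02
    simpa only [map_mul, map_smul, map_add, map_one, hπ0, hπ1, hπ2] using this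
  have h24 : a 2 * a 4 = a 3 + Q • (1 : D) := by
    have := congrArg π h13
    simpa only [map_mul, map_smul, map_add, map_one, hπ1, hπ2, hπ3] using this
  have h30 : a 3 * a 0 = a 4 + Q • (1 : D) := by
    have := congrArg π h24
    simpa only [map_mul, map_smul, map_add, map_one, hπ2, hπ3, hπ4] using this
  have h41 : a 4 * a 1 = a 0 + Q • (1 : D) := by
    have := congrArg π h30
    simpa only [map_mul, map_smul, map_add, map_one, hπ3, hπ4, hπ0] using this
  have h31 : a 3 * a 1 = Q • (a 2 + 1) := by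
    have := congrArg π h20
    simpa only [map_mul, map_smul, map_add, map_one, hπ0, hπ1, hπ2] using this
  have h42 : a 4 * a 2 = Q • (a 3 + 1) := by
    have := congrArg π h31
    simpa only [map_mul, map_smul, map_add, map_one, hπ1, hπ2, hπ3] using this
  have h03 : a 0 * a 3 = Q • (a 4 + 1) := by
    have := congrArg π h42
    simpa only [map_mul, map_smul, map_add, map_one, hπ2, hπ3, hπ4] using this
  have h14 : a 1 * a 4 = Q • (a 0 + 1) := by
    have := congrArg π h03
    simpa only [map_mul, map_smul, map_add, map_one, hπ3, hπ4, hπ0] using this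
  have g01 : a 0 * a 1 = G 0 * a 0 + G 1 * a 1 + G 2 * a 2 + G 3 * a 3 + G 4 * a 4 := by
    have := hG 0; rw [Fin.sum_univ_five] at this; exact this
  have g12 : a 1 * a 2 = G 0 * a 1 + G 1 * a 2 + G 2 * a 3 + G 3 * a 4 + G 4 * a 0 := by
    have := hG 1; rw [Fin.sum_univ_five] at this; exact this
  have g23 : a 2 * a 3 = G 0 * a 2 + G 1 * a 3 + G 2 * a 4 + G 3 * a 0 + G 4 * a 1 := by
    have := hG 2; rw [Fin.sum_univ_five] at this; exact this
  have g34 : a 3 * a 4 = G 0 * a 3 + G 1 * a 4 + G 2 * a 0 + G 3 * a 1 + G 4 * a 2 := by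
    have := hG 3; rw [Fin.sum_univ_five] at this; exact this
  have g40 : a 4 * a 0 = G 0 * a 4 + G 1 * a 0 + G 2 * a 1 + G 3 * a 2 + G 4 * a 3 := by
    have := hG 4; rw [Fin.sum_univ_five] at this; exact this
  -- fixed elements
  have htr := tr_ne_zero hind
  have htrfix := tr_fixed (π := π) hπ
  -- first family of relations
  have E1 := rel_one Q (a 0) (a 1) (a 2) (a 3) (a 4) (G 0) (G 1) (G 2) (G 3) (G 4)
    g01 g23 g34 h43 h02 h13 h03
  have E2 := rel_two Q (a 0) (a 1) (a 2) (a 3) (a 4) (G 0) (G 1) (G 2) (G 3) (G 4)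
    g01 g34 g40 h10 h04 h24 h30 h20 h14
  have hs : a 0 + a 1 + a 2 + a 3 + a 4 = tr a := rfl
  rw [hs] at E1 E2
  have C1 := compare hπ hind
    ![(-(Q • (1 : D)) + (G 2 - G 3) * G 3 + Q • ((G 4 - G 3) * G 2)),
      (-(1 : D) + (G 2 - G 3) * G 4 + Q • ((G 4 - G 3) * G 3)),
      ((G 2 - G 3) * G 0 + Q • ((G 4 - G 3) * G 4) + (G 1 - G 3)),
      ((G 2 - G 3) * G 1 + Q • ((G 4 - G 3) * G 0) + G 3 * tr a),
      ((G 2 - G 3) * G 2 + Q • ((G 4 - G 3) * G 1) + Q • (G 0 - G 3))]
    (Q • (G 0 + G 1 - 2 • G 3 - 1))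
    (by
      intro i
      fin_cases i <;>
      simp [hGfix, htrfix])
    (by simp only [map_smul, map_sub, map_add, map_nsmul, map_one, hGfix])
    (by rw [Fin.sum_univ_five]; exact E1)
  have C2 := compare hπ hind
    ![(Q • ((G 0 - G 4) * G 1) + (G 3 - G 4) * G 2 + Q • (G 1 - G 4) - Q • (1 : D)
      - Q • tr a + (Q * Q) • G 0 + Q • G 1),
      (Q • ((G 0 - G 4) * G 2) + (G 3 - G 4) * G 3 + (Q * Q) • G 1 + Q • G 2
        + (Q * Q) • (1 : D)),
      (Q • ((G 0 - G 4) * G 3) + (G 3 - G 4) * G 4 + (Q * Q) • G 2 + Q • G 3),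
      (Q • ((G 0 - G 4) * G 4) + (G 3 - G 4) * G 0 + (G 2 - G 4) + (Q * Q) • G 3 + Q • G 4),
      (Q • ((G 0 - G 4) * G 0) + (G 3 - G 4) * G 1 + G 4 * tr a + (Q * Q) • G 4
      + Q • G 0 + Q • (1 : D))]
    (Q • (G 1 - G 4) + Q • (G 2 - G 4) + (2 * (Q * Q)) • (1 : D))
    (by
      intro i
      fin_cases i <;>
      simp [hGfix, htrfix])
    (by simp [hGfix])
    (by rw [Fin.sum_univ_five]; exact E2)
  have eqs : ∀ {c c' e : D}, c * tr a + e = 0 → c' * tr a + e = 0 → c = c' := by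
    intro c c' e h h'
    exact mul_right_cancel₀ htr (add_right_cancel (h.trans h'.symm))
  have I := rel_I Q (G 2) (G 3) (G 4) (eqs (C1 0) (C1 1))
  have A := rel_A Q (G 0) (G 1) (G 2) (G 3) (G 4) (eqs (C1 0) (C1 4))
  have B := rel_B Q (G 0) (G 1) (G 2) (G 3) (G 4) (eqs (C1 1) (C1 2))
  have Al := rel_alpha Q (tr a) (G 0) (G 1) (G 2) (G 3) (G 4) (eqs (C1 0) (C1 3))
  have S := rel_s Q (tr a) (G 0) (G 1) (G 2) (G 3) (G 4) (C1 0)
  have C := rel_C Q (G 0) (G 1) (G 2) (G 3) (G 4) (eqs (C2 1) (C2 2))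
  have Dd := rel_D Q (G 0) (G 2) (G 3) (G 4) (eqs (C2 2) (C2 3))
  set X : D := G 3 - G 4 with hX
  set Y : D := G 3 - G 2 with hY
  set L1 : D := G 0 - G 4 with hL1
  set L4 : D := G 1 - G 2 with hL4
  have hq5 : (q : k) ^ 5 ≠ 1 := by
    intro h
    exact hq 5 (by norm_num) (Units.ext (by push_cast; exact h))
  have hne : Y * X ≠ 1 := nondegenerate (q : k) Q hqQ hq5 X Y L1 L4 I A B C Dd
  have hZ0 : Y * X - 1 ≠ 0 := sub_ne_zero.mpr hne
  have hXY : X * Y - 1 = (q : k) • (Y * X - 1) := by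
    rw [← I, smul_smul, hqQ, one_smul]
  have hX0 : X ≠ 0 := by
    intro h0
    rw [h0, zero_mul, mul_zero, zero_sub] at hXY
    have h1 : ((q : k) - 1) • (1 : D) = 0 := by
      rw [sub_smul, one_smul]
      have : (q : k) • (1 : D) = 1 := by
        rw [smul_neg] at hXY
        exact (neg_injective hXY).symm
      rw [this, sub_self]
    rw [smul_eq_zero] at h1
    rcases h1 with h1 | h1
    · exact hq 1 one_pos (Units.ext (by simpa using sub_eq_zero.mp h1))
    · exact one_ne_zero h1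
  have hXZ : X * (Y * X - 1) = (q : k) • ((Y * X - 1) * X) := by
    have : X * (Y * X - 1) = (X * Y - 1) * X := by noncomm_ring
    rw [this, hXY, smul_mul_assoc]
  -- the embedding
  let Φ : QDiv k q →ₐ[k] D := QDiv.lift hq X (Y * X - 1) hX0 hZ0 hXZ
  have hΦx : Φ (QDiv.x k q) = X := QDiv.lift_x hq X (Y * X - 1) hX0 hZ0 hXZ
  have hΦy : Φ (QDiv.y k q) = Y * X - 1 := QDiv.lift_y hq X (Y * X - 1) hX0 hZ0 hXZ
  have inv_mem : ∀ d ∈ Φ.range, d⁻¹ ∈ Φ.range := by
    rintro _ ⟨e, rfl⟩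
    exact ⟨e⁻¹, map_inv₀ Φ e⟩
  have mX : X ∈ Φ.range := ⟨_, hΦx⟩
  have mZ : Y * X - 1 ∈ Φ.range := ⟨_, hΦy⟩
  have mY : Y ∈ Φ.range := by
    have : Y = (Y * X - 1 + 1) * X⁻¹ := by
      rw [sub_add_cancel, mul_assoc, mul_inv_cancel₀ hX0, mul_one]
    rw [this]
    exact mul_mem (add_mem mZ (one_mem _)) (inv_mem _ mX)
  have mL4 : L4 ∈ Φ.range := by
    have h1 : (Y * X - 1) * L4 = Q • (X * X) + (q : k) • (Y * (Y * Y)) - (Y * X - 1) :=
      L4_eq (q : k) Q hqQ X Y L1 L4 A B
    have h2 : L4 = (Y * X - 1)⁻¹ * (Q • (X * X) + (q : k) • (Y * (Y * Y)) - (Y * X - 1)) := by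
      rw [← h1, ← mul_assoc, inv_mul_cancel₀ hZ0, one_mul]
    rw [h2]
    exact mul_mem (inv_mem _ mZ) (sub_mem (add_mem (Subalgebra.smul_mem _ (mul_mem mX mX) _)
      (Subalgebra.smul_mem _ (mul_mem mY (mul_mem mY mY)) _)) mZ)
  have mL1 : L1 ∈ Φ.range := by
    have h1 : L1 = X * L4 - (q : k) • (Y * Y) - 1 + X := L1_eq (q : k) Q hqQ X Y L1 L4 A
    rw [h1]
    exact add_mem (sub_mem (sub_mem (mul_mem mX mL4)
      (Subalgebra.smul_mem _ (mul_mem mY mY) _)) (one_mem _)) mX
  have mAl : G 3 * tr a ∈ Φ.range := by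
    rw [Al]
    exact add_mem (add_mem (neg_mem (Subalgebra.smul_mem _ (one_mem _) _))
      (mul_mem mY (sub_mem mL4 mY)))
      (Subalgebra.smul_mem _ (mul_mem mX (add_mem (sub_mem mL1 mX) mY)) _)
  have mtr : tr a ∈ Φ.range := by
    have h1 : (1 - X * Y) * tr a ∈ Φ.range := by
      have e1 : (1 - X * Y) * tr a = (q : k) • (Q • ((1 - X * Y) * tr a)) := by
        rw [smul_smul, hqQ, one_smul]
      rw [e1, S]
      exact Subalgebra.smul_mem _ (sub_mem (Subalgebra.smul_mem _ (sub_mem (sub_mem (add_mem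
        (sub_mem mL1 mX) mL4) mY) (one_mem _)) _)
        (mul_mem (add_mem mY (Subalgebra.smul_mem _ mX _)) mAl)) _
    have h2 : 1 - X * Y ≠ 0 := by
      intro h0
      have : X * Y - 1 = 0 := by rw [← neg_sub, h0, neg_zero]
      rw [hXY, smul_eq_zero] at this
      rcases this with h | h
      · exact q.ne_zero h
      · exact hZ0 h
    have h3 : tr a = (1 - X * Y)⁻¹ * ((1 - X * Y) * tr a) := by
      rw [← mul_assoc, inv_mul_cancel₀ h2, one_mul]
    rw [h3]
    exact mul_mem (inv_mem _ (sub_mem (one_mem _) (mul_mem mX mY))) h1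
  have mG3 : G 3 ∈ Φ.range := by
    have : G 3 = (G 3 * tr a) * (tr a)⁻¹ := by
      rw [mul_assoc, mul_inv_cancel₀ htr, mul_one]
    rw [this]
    exact mul_mem mAl (inv_mem _ mtr)
  have mG4 : G 4 ∈ Φ.range := by
    have : G 4 = G 3 - X := by rw [hX]; abel
    rw [this]; exact sub_mem mG3 mX
  have mG2 : G 2 ∈ Φ.range := by
    have : G 2 = G 3 - Y := by rw [hY]; abel
    rw [this]; exact sub_mem mG3 mY
  have mG1 : G 1 ∈ Φ.range := by
    have : G 1 = L4 + G 2 := by rw [hL4]; abel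
    rw [this]; exact add_mem mL4 mG2
  have mG0 : G 0 ∈ Φ.range := by
    have : G 0 = L1 + G 4 := by rw [hL1]; abel
    rw [this]; exact add_mem mL1 mG4
  have mG : ∀ m, G m ∈ Φ.range := by
    intro m
    fin_cases m
    · exact mG0
    · exact mG1
    · exact mG2
    · exact mG3
    · exact mG4
  -- the left span of the `a i` over the image
  let InV : D → Prop := fun d => ∃ c : Fin 5 → QDiv k q, d = ∑ j, Φ (c j) * a j
  have V_add : ∀ d e, InV d → InV e → InV (d + e) := by
    rintro _ _ ⟨c, rfl⟩ ⟨c', rfl⟩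
    refine ⟨fun j => c j + c' j, ?_⟩
    rw [← Finset.sum_add_distrib]
    exact Finset.sum_congr rfl fun j _ => by rw [map_add, add_mul]
  have V_smul : ∀ e ∈ Φ.range, ∀ d, InV d → InV (e * d) := by
    rintro _ ⟨e, rfl⟩ _ ⟨c, rfl⟩
    refine ⟨fun j => e * c j, ?_⟩
    rw [Finset.mul_sum]
    exact Finset.sum_congr rfl fun j _ => by
      change Φ e * _ = _
      rw [map_mul, mul_assoc]
  have V_neg : ∀ d, InV d → InV (-d) := by
    intro d hd
    have := V_smul (-1) (neg_mem (one_mem _)) d hd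
    simpa using this
  have V_sub : ∀ d e, InV d → InV e → InV (d - e) := by
    intro d e hd he
    rw [sub_eq_add_neg]
    exact V_add _ _ hd (V_neg _ he)
  have V_k : ∀ (c : k) (d : D), InV d → InV (c • d) := by
    intro c d hd
    rw [Algebra.smul_def]
    exact V_smul _ (Φ.range.algebraMap_mem c) d hd
  have V_a : ∀ i, InV (a i) := by
    intro i
    refine ⟨fun j => if j = i then 1 else 0, ?_⟩
    rw [Finset.sum_eq_single i]
    · simp
    · intro j _ hj; simp [hj]
    · intro h; exact absurd (Finset.mem_univ i) h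
  have V_sum : ∀ (f : Fin 5 → D), (∀ i, InV (f i)) → InV (∑ i, f i) := by
    intro f hf
    rw [Fin.sum_univ_five]
    exact V_add _ _ (V_add _ _ (V_add _ _ (V_add _ _ (hf 0) (hf 1)) (hf 2)) (hf 3)) (hf 4)
  have V_one : InV 1 := by
    have h1 : (1 : D) = (tr a)⁻¹ * ∑ m, a (0 + m) := by
      rw [tr_eq, inv_mul_cancel₀ htr]
    rw [h1]
    refine V_smul _ (inv_mem _ mtr) _ (V_sum _ fun i => V_a _)
  have V_prod1 : ∀ i, InV (a i * a (i + 1)) := by
    intro i
    rw [hG]
    exact V_sum _ fun m => V_smul _ (mG m) _ (V_a _)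
  have V01 : InV (a 0 * a 1) := V_prod1 0
  have V12 : InV (a 1 * a 2) := V_prod1 1
  have V23 : InV (a 2 * a 3) := V_prod1 2
  have V34 : InV (a 3 * a 4) := V_prod1 3
  have V40 : InV (a 4 * a 0) := V_prod1 4
  have V10 : InV (a 1 * a 0) := by rw [h10]; exact V_k _ _ V01
  have V21 : InV (a 2 * a 1) := by rw [h21]; exact V_k _ _ V12
  have V20 : InV (a 2 * a 0) := by rw [h20]; exact V_k _ _ (V_add _ _ (V_a 1) V_one)
  have V31 : InV (a 3 * a 1) := by rw [h31]; exact V_k _ _ (V_add _ _ (V_a 2) V_one)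
  have V30 : InV (a 3 * a 0) := by rw [h30]; exact V_add _ _ (V_a 4) (V_k _ _ V_one)
  have V41 : InV (a 4 * a 1) := by rw [h41]; exact V_add _ _ (V_a 0) (V_k _ _ V_one)
  have V00 : InV (a 0 * a 0) := by
    have : a 0 * a 0 = tr a * a 0 - a 1 * a 0 - a 2 * a 0 - a 3 * a 0 - a 4 * a 0 := by
      rw [tr]; noncomm_ring
    rw [this]
    exact V_sub _ _ (V_sub _ _ (V_sub _ _ (V_sub _ _ (V_smul _ mtr _ (V_a 0)) V10) V20) V30) V40
  have V11 : InV (a 1 * a 1) := by
    have : a 1 * a 1 = tr a * a 1 - a 0 * a 1 - a 2 * a 1 - a 3 * a 1 - a 4 * a 1 := by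
      rw [tr]; noncomm_ring
    rw [this]
    exact V_sub _ _ (V_sub _ _ (V_sub _ _ (V_sub _ _ (V_smul _ mtr _ (V_a 1)) V01) V21) V31) V41
  have V_mul0 : ∀ i, InV (a i * a 0) := by
    intro i
    fin_cases i
    · exact V00
    · exact V10
    · exact V20
    · exact V30
    · exact V40
  have V_mul1 : ∀ i, InV (a i * a 1) := by
    intro i
    fin_cases i
    · exact V01
    · exact V11
    · exact V21
    · exact V31
    · exact V41
  have V_mul : ∀ r ∈ Algebra.adjoin k {a 0, a 1}, ∀ d, InV d → InV (d * r) := by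
    intro r hr
    induction hr using Algebra.adjoin_induction with
    | mem x hx =>
      rintro d ⟨c, rfl⟩
      rw [Finset.sum_mul]
      rcases hx with rfl | hx
      · exact V_sum _ fun i => by
          rw [mul_assoc]; exact V_smul _ ⟨_, rfl⟩ _ (V_mul0 i)
      · rw [Set.mem_singleton_iff] at hx
        subst hx
        exact V_sum _ fun i => by
          rw [mul_assoc]; exact V_smul _ ⟨_, rfl⟩ _ (V_mul1 i)
    | algebraMap c =>
      intro d hd
      rw [← Algebra.commutes, ← Algebra.smul_def]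
      exact V_k _ _ hd
    | add x y _ _ hx hy =>
      intro d hd
      rw [mul_add]
      exact V_add _ _ (hx d hd) (hy d hd)
    | mul x y _ _ hx hy =>
      intro d hd
      rw [← mul_assoc]
      exact hy _ (hx d hd)
  have V_all : ∀ d : D, InV d := by
    intro d
    obtain ⟨s, hs, r, hr, hs0, hsd⟩ := hfrac d
    obtain ⟨c1, hc1⟩ := V_one
    obtain ⟨c', hc'⟩ := right_mul_surj (Φ : QDiv k q →+* D) a s hs0
      (fun i => V_mul s hs _ (V_a i)) c1
    have hinv : InV s⁻¹ := by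
      refine ⟨c', ?_⟩
      have h1 : (∑ j, Φ (c' j) * a j) * s = 1 := by rw [hc1]; exact hc'
      exact (eq_inv_of_mul_eq_one_left h1).symm
    have hd : d = s⁻¹ * r := by
      rw [← hsd, ← mul_assoc, inv_mul_cancel₀ hs0, one_mul]
    rw [hd]
    exact V_mul r hr _ hinv
  have fix_range : ∀ d ∈ Φ.range, π d = d := by
    rintro _ ⟨e, rfl⟩
    have h1 : (π : D →ₐ[k] D).comp Φ = Φ := by
      apply QDiv.algHom_ext
      · change π (Φ (QDiv.x k q)) = Φ (QDiv.x k q)
        rw [hΦx, hX, map_sub, hGfix, hGfix]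
      · change π (Φ (QDiv.y k q)) = Φ (QDiv.y k q)
        rw [hΦy, hX, hY, map_sub, map_mul, map_sub, map_sub, map_one, hGfix, hGfix, hGfix]
    exact AlgHom.congr_fun h1 e
  have range_of_fix : ∀ d, π d = d → d ∈ Φ.range := by
    intro d hd
    obtain ⟨c, hc⟩ := V_all d
    have h1 := compare hπ hind (fun j => Φ (c j)) (-d) (fun i => fix_range _ ⟨_, rfl⟩)
      (by rw [map_neg, hd]) (by rw [← hc, add_neg_cancel]) 0
    have h2 : d = Φ (c 0) * tr a := (add_neg_eq_zero.mp h1).symm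
    rw [h2]
    exact mul_mem ⟨_, rfl⟩ mtr
  exact ⟨AlgEquiv.ofBijective (Φ.codRestrict (fixedSubalgebra π) (fun e => fix_range _ ⟨e, rfl⟩))
    ⟨by
      intro e e' h
      exact Φ.toRingHom.injective (congrArg Subtype.val h), by
      rintro ⟨d, hd⟩
      obtain ⟨e, he⟩ := range_of_fix d hd
      exact ⟨e, Subtype.ext he⟩⟩⟩

end Main

end Pool.Agent.Helper42.Lyness
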