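import Mathlib
import Pool.Agent.Helper42.QuantumPlane
import Pool.Agent.Helper42.QDiv
import Pool.Agent.Helper42.LynessCore
import Pool.Agent.Helper42.LynessMain

/-! The automorphism `x ↦ y`, `y ↦ x⁻¹ (y + q⁻¹)` of the `q`-division ring. -/

universe u

open Pool.Agent.Helper42 Pool.Agent.Helper42.QuantumPlane Pool.Agent.Helper42.QDiv
open Pool.Agent.Helper42.Lyness

namespace Pool.Agent.Helper42.LynessQDiv

variable {k : Type u} [Field k] {q : kˣ}

/-- The weight of a monomial. -/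
def wt (p : ℕ × ℕ) : ℕ := 2 * p.1 + p.2

theorem repr_wt_zero (r : QuantumPlane k q) (p0 p : ℕ × ℕ)
    (hr : ∀ p', wt p0 < wt p' → basis.repr r p' = 0) (hp : wt p ≤ 4) :
    basis.repr (r * mono k q p) (p0 + (2, 1)) = 0 := by
  refine repr_mul_mono_eq_zero _ _ _ fun m hm => hr m ?_
  have h1 := congrArg Prod.fst hm
  have h2 := congrArg Prod.snd hm
  simp only [Prod.fst_add, Prod.snd_add] at h1 h2
  unfold wt at *
  omega

/-- The polynomials `a j * (y * x)`. -/
noncomputable def B (k : Type u) [Field k] (q : kˣ) : Fin 5 → QuantumPlane k q :=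
  ![((q⁻¹ : kˣ) : k) • mono k q (2, 1),
    (((q⁻¹ : kˣ) : k) * ((q⁻¹ : kˣ) : k)) • mono k q (1, 2),
    (((q⁻¹ : kˣ) : k) * ((q⁻¹ : kˣ) : k)) • (mono k q (0, 2) + mono k q (0, 1)),
    (((q⁻¹ : kˣ) : k) * ((q⁻¹ : kˣ) : k)) • (mono k q (0, 1) + mono k q (0, 0))
      + ((q⁻¹ : kˣ) : k) • mono k q (1, 0),
    mono k q (2, 0) + ((q⁻¹ : kˣ) : k) • mono k q (1, 0)]

theorem repr_mul_B_zero (r : QuantumPlane k q) (p0 : ℕ × ℕ)
    (hr : ∀ p', wt p0 < wt p' → basis.repr r p' = 0) (j : Fin 5) (hj : j ≠ 0) :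
    basis.repr (r * B k q j) (p0 + (2, 1)) = 0 := by
  have key := fun p hp => repr_wt_zero r p0 p hr hp
  fin_cases j
  · exact absurd rfl hj
  · change basis.repr (r * ((((q⁻¹ : kˣ) : k) * ((q⁻¹ : kˣ) : k)) • mono k q (1, 2))) _ = 0
    rw [mul_smul_comm, map_smul, Finsupp.smul_apply, key _ (by simp [wt]), smul_zero]
  · change basis.repr (r * ((((q⁻¹ : kˣ) : k) * ((q⁻¹ : kˣ) : k)) •
      (mono k q (0, 2) + mono k q (0, 1)))) _ = 0
    rw [mul_smul_comm, map_smul, Finsupp.smul_apply, mul_add, map_add basis.repr, Finsupp.add_apply,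
      key _ (by simp [wt]), key _ (by simp [wt]), add_zero, smul_zero]
  · change basis.repr (r * ((((q⁻¹ : kˣ) : k) * ((q⁻¹ : kˣ) : k)) •
      (mono k q (0, 1) + mono k q (0, 0)) + ((q⁻¹ : kˣ) : k) • mono k q (1, 0))) _ = 0
    rw [mul_add, map_add basis.repr, Finsupp.add_apply, mul_smul_comm, mul_smul_comm, map_smul, map_smul,
      Finsupp.smul_apply, Finsupp.smul_apply, mul_add, map_add basis.repr, Finsupp.add_apply,
      key _ (by simp [wt]), key _ (by simp [wt]), key _ (by simp [wt]), add_zero, smul_zero,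
      smul_zero, add_zero]
  · change basis.repr (r * (mono k q (2, 0) + ((q⁻¹ : kˣ) : k) • mono k q (1, 0))) _ = 0
    rw [mul_add, map_add basis.repr, Finsupp.add_apply, mul_smul_comm, map_smul,
      Finsupp.smul_apply, key _ (by simp [wt]), key _ (by simp [wt]), smul_zero, add_zero]

theorem indep_poly (r : Fin 5 → QuantumPlane k q)
    (h : ∀ i, ∑ m, r m * B k q (i + m) = 0) : r = 0 := by
  classical
  by_contra hne
  have hex : ∃ m, r m ≠ 0 := by
    by_contra hcon
    push Not at hcon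
    exact hne (funext hcon)
  let S : Finset (ℕ × ℕ) := Finset.univ.biUnion (fun m => (basis.repr (r m)).support)
  have hS : S.Nonempty := by
    obtain ⟨m, hm⟩ := hex
    have : (basis.repr (r m)).support.Nonempty := by
      rw [Finsupp.support_nonempty_iff]
      intro h
      exact hm (by simpa using h)
    obtain ⟨p, hp⟩ := this
    exact ⟨p, Finset.mem_biUnion.mpr ⟨m, Finset.mem_univ _, hp⟩⟩
  obtain ⟨p0, hp0, hmax⟩ := S.exists_max_image wt hS
  obtain ⟨m0, -, hm0⟩ := Finset.mem_biUnion.mp hp0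
  have hbig : ∀ m p', wt p0 < wt p' → basis.repr (r m) p' = 0 := by
    intro m p' hp'
    by_contra hcon
    have := hmax p' (Finset.mem_biUnion.mpr ⟨m, Finset.mem_univ _,
      Finsupp.mem_support_iff.mpr hcon⟩)
    omega
  have h1 := congrArg (fun t => basis.repr t (p0 + (2, 1))) (h (-m0))
  simp only [map_sum, Finsupp.finsetSum_apply, map_zero, Finsupp.coe_zero, Pi.zero_apply] at h1
  rw [Finset.sum_eq_single m0] at h1
  · rw [neg_add_cancel] at h1
    change basis.repr (r m0 * (((q⁻¹ : kˣ) : k) • mono k q (2, 1))) (p0 + (2, 1)) = 0 at h1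
    rw [mul_smul_comm, map_smul, Finsupp.smul_apply, repr_mul_mono_add, smul_eq_mul] at h1
    exact mul_ne_zero (Units.ne_zero _) (mul_ne_zero (Finsupp.mem_support_iff.mp hm0)
      (pow_ne_zero _ (Units.ne_zero _))) h1
  · intro m _ hm
    apply repr_mul_B_zero _ _ (hbig m)
    intro h0
    apply hm
    have : m = m0 + (-m0 + m) := by abel
    rw [this, h0, add_zero]
  · intro h; exact absurd (Finset.mem_univ _) h

/-- The second element `x⁻¹ (y + q⁻¹)` of the orbit. -/
noncomputable def a2 (k : Type u) [Field k] (q : kˣ) : QDiv k q :=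
  (x k q)⁻¹ * (y k q + algebraMap k (QDiv k q) ((q⁻¹ : kˣ) : k))

/-- The third element of the orbit. -/
noncomputable def a3 (k : Type u) [Field k] (q : kˣ) : QDiv k q :=
  (y k q)⁻¹ * (a2 k q + algebraMap k (QDiv k q) ((q⁻¹ : kˣ) : k))

/-- The fourth element of the orbit. -/
noncomputable def a4 (k : Type u) [Field k] (q : kˣ) : QDiv k q :=
  (x k q + algebraMap k (QDiv k q) ((q⁻¹ : kˣ) : k)) * (y k q)⁻¹

theorem algebraMap_eq (c : k) : algebraMap k (QDiv k q) c = c • (1 : QDiv k q) :=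
  Algebra.algebraMap_eq_smul_one c

theorem y_mul_x : y k q * x k q = ((q⁻¹ : kˣ) : k) • (x k q * y k q) := by
  rw [x_mul_y, smul_smul]; simp

theorem x_mul_a2 : x k q * a2 k q = y k q + ((q⁻¹ : kˣ) : k) • (1 : QDiv k q) := by
  rw [a2, ← mul_assoc, mul_inv_cancel₀ x_ne_zero, one_mul, algebraMap_eq]

theorem a2_mul_x : a2 k q * x k q = ((q⁻¹ : kˣ) : k) • (y k q + 1) := by
  apply mul_left_cancel₀ (x_ne_zero (k := k) (q := q))
  rw [← mul_assoc, x_mul_a2, add_mul, y_mul_x, smul_mul_assoc, one_mul, mul_smul_comm, mul_add,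
    mul_one, smul_add]

theorem a2_ne_zero : a2 k q ≠ 0 := by
  intro h
  have h1 := x_mul_a2 (k := k) (q := q)
  rw [h, mul_zero] at h1
  have h2 : incl (Y k q + ((q⁻¹ : kˣ) : k) • (1 : QuantumPlane k q)) = 0 := by
    rw [map_add, map_smul, map_one]; exact h1.symm
  have h3 := incl_injective (h2.trans (map_zero _).symm)
  have h4 := congrArg (fun t => basis.repr t (0, 1)) h3
  have h5 : (1 : QuantumPlane k q) = mono k q (0, 0) := by simp [mono]
  rw [Y_eq_mono, h5] at h4
  simp only [map_add, map_smul, repr_mono, Finsupp.add_apply, Finsupp.smul_apply, map_zero] at h4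
  simp at h4

theorem y_mul_a2 : y k q * a2 k q = (q : k) • (a2 k q * y k q) := by
  apply mul_left_cancel₀ (x_ne_zero (k := k) (q := q))
  rw [← mul_assoc, x_mul_y, mul_smul_comm, ← mul_assoc, x_mul_a2, smul_mul_assoc, mul_assoc,
    x_mul_a2, mul_add, add_mul, mul_smul_comm, mul_one, smul_mul_assoc, one_mul]

theorem a2_mul_y : a2 k q * y k q = ((q⁻¹ : kˣ) : k) • (y k q * a2 k q) := by
  rw [y_mul_a2, smul_smul]; simp

theorem y_mul_a3 : y k q * a3 k q = a2 k q + ((q⁻¹ : kˣ) : k) • (1 : QDiv k q) := by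
  rw [a3, ← mul_assoc, mul_inv_cancel₀ y_ne_zero, one_mul, algebraMap_eq]

theorem a3_mul_y : a3 k q * y k q = ((q⁻¹ : kˣ) : k) • (a2 k q + 1) := by
  apply mul_left_cancel₀ (y_ne_zero (k := k) (q := q))
  rw [← mul_assoc, y_mul_a3, add_mul, a2_mul_y, smul_mul_assoc, one_mul, mul_smul_comm, mul_add,
    mul_one, smul_add]

theorem a4_mul_y : a4 k q * y k q = x k q + ((q⁻¹ : kˣ) : k) • (1 : QDiv k q) := by
  rw [a4, mul_assoc, inv_mul_cancel₀ y_ne_zero, mul_one, algebraMap_eq]

theorem a2_mul_a4 : a2 k q * a4 k q = a3 k q + ((q⁻¹ : kˣ) : k) • (1 : QDiv k q) := by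
  apply mul_right_cancel₀ (y_ne_zero (k := k) (q := q))
  rw [mul_assoc, a4_mul_y, mul_add, a2_mul_x, add_mul, a3_mul_y, mul_smul_comm, mul_one,
    smul_mul_assoc, one_mul]
  module

/-- The orbit of `x`. -/
noncomputable def orb (k : Type u) [Field k] (q : kˣ) : Fin 5 → QDiv k q :=
  ![x k q, y k q, a2 k q, a3 k q, a4 k q]

theorem orb_mul (j : Fin 5) : orb k q j * (y k q * x k q) = incl (B k q j) := by
  have hx : x k q = incl (mono k q (1, 0)) := by rw [← X_eq_mono]; rfl
  have hy : y k q = incl (mono k q (0, 1)) := by rw [← Y_eq_mono]; rfl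
  have h1 : (1 : QDiv k q) = incl (mono k q (0, 0)) := by simp [mono]
  fin_cases j
  · change x k q * (y k q * x k q) = incl (((q⁻¹ : kˣ) : k) • mono k q (2, 1))
    rw [hx, hy, ← map_mul, ← map_mul, mono_mul_mono, mul_smul_comm, mono_mul_mono, smul_smul]
    simp
  · change y k q * (y k q * x k q) =
      incl ((((q⁻¹ : kˣ) : k) * ((q⁻¹ : kˣ) : k)) • mono k q (1, 2))
    rw [hx, hy, ← map_mul, ← map_mul, mono_mul_mono, mul_smul_comm, mono_mul_mono, smul_smul]
    simp
  · change a2 k q * (y k q * x k q) = incl ((((q⁻¹ : kˣ) : k) * ((q⁻¹ : kˣ) : k)) •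
      (mono k q (0, 2) + mono k q (0, 1)))
    rw [← mul_assoc, a2_mul_y, smul_mul_assoc, mul_assoc, a2_mul_x, mul_smul_comm, smul_smul,
      mul_add, mul_one, map_smul, map_add, hy, ← map_mul, mono_mul_mono]
    simp
  · change a3 k q * (y k q * x k q) = incl ((((q⁻¹ : kˣ) : k) * ((q⁻¹ : kˣ) : k)) •
      (mono k q (0, 1) + mono k q (0, 0)) + ((q⁻¹ : kˣ) : k) • mono k q (1, 0))
    rw [← mul_assoc, a3_mul_y, smul_mul_assoc, add_mul, a2_mul_x, map_add, map_smul, map_smul,
      map_add, ← hx, ← hy, ← h1, smul_add, smul_smul, one_mul]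
  · change a4 k q * (y k q * x k q) =
      incl (mono k q (2, 0) + ((q⁻¹ : kˣ) : k) • mono k q (1, 0))
    rw [← mul_assoc, a4_mul_y, add_mul, smul_mul_assoc, one_mul, map_add, map_smul, hx,
      ← map_mul, mono_mul_mono]
    simp

theorem orb_indep (c : Fin 5 → QDiv k q) (h : ∀ i, ∑ m, c m * orb k q (i + m) = 0) : c = 0 := by
  obtain ⟨s, hs, r, hr⟩ := exists_common (Fin 5) c
  have hr0 : r = 0 := by
    apply indep_poly
    intro i
    apply incl_injective
    rw [map_sum, map_zero]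
    have h1 : incl s * (∑ m, c m * orb k q (i + m)) * (y k q * x k q) = 0 := by
      rw [h i, mul_zero, zero_mul]
    rw [← h1, Finset.mul_sum, Finset.sum_mul]
    refine Finset.sum_congr rfl fun m _ => ?_
    rw [map_mul, ← hr, ← orb_mul]
    simp only [mul_assoc]
  funext m
  have h2 := hr m
  rw [hr0, Pi.zero_apply, map_zero] at h2
  rcases mul_eq_zero.mp h2 with h3 | h3
  · exact absurd h3 (incl_ne_zero hs)
  · exact h3

theorem incl_mem_adjoin (r : QuantumPlane k q) :
    incl r ∈ Algebra.adjoin k {orb k q 0, orb k q 1} := by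
  induction r using QuantumPlane.induction with
  | halg c => rw [AlgHom.commutes]; exact Subalgebra.algebraMap_mem _ _
  | hX => exact Algebra.subset_adjoin (Or.inl rfl)
  | hY => exact Algebra.subset_adjoin (Or.inr rfl)
  | hadd a b ha hb => rw [map_add]; exact add_mem ha hb
  | hmul a b ha hb => rw [map_mul]; exact mul_mem ha hb

/-- The endomorphism `x ↦ y`, `y ↦ x⁻¹ (y + q⁻¹)`. -/
noncomputable def phi (hq : ∀ n : ℕ, 0 < n → q ^ n ≠ 1) : QDiv k q →ₐ[k] QDiv k q :=
  QDiv.lift hq (y k q) (a2 k q) y_ne_zero a2_ne_zero y_mul_a2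

section Phi

variable (hq : ∀ n : ℕ, 0 < n → q ^ n ≠ 1)

theorem phi_x : phi hq (x k q) = y k q := lift_x _ _ _ _ _ _

theorem phi_y : phi hq (y k q) = a2 k q := lift_y _ _ _ _ _ _

theorem phi_a2 : phi hq (a2 k q) = a3 k q := by
  rw [a2, map_mul, map_inv₀, map_add, AlgHom.commutes, phi_x, phi_y, a3, a2]

theorem phi_a3 : phi hq (a3 k q) = a4 k q := by
  rw [a3, map_mul, map_inv₀, map_add, AlgHom.commutes, phi_y, phi_a2, algebraMap_eq, ← a2_mul_a4,
    ← mul_assoc, inv_mul_cancel₀ a2_ne_zero, one_mul]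

theorem phi_a4 : phi hq (a4 k q) = x k q := by
  rw [a4, map_mul, map_inv₀, map_add, AlgHom.commutes, phi_x, phi_y, algebraMap_eq, ← x_mul_a2,
    mul_assoc, mul_inv_cancel₀ a2_ne_zero, mul_one]

theorem phi_comp : ((phi hq).comp ((phi hq).comp ((phi hq).comp ((phi hq).comp (phi hq))))) =
    AlgHom.id k (QDiv k q) := by
  apply QDiv.algHom_ext
  · simp only [AlgHom.comp_apply, AlgHom.id_apply, phi_x, phi_y, phi_a2, phi_a3, phi_a4]
  · simp only [AlgHom.comp_apply, AlgHom.id_apply, phi_x, phi_y, phi_a2, phi_a3, phi_a4]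

/-- The automorphism `x ↦ y`, `y ↦ x⁻¹ (y + q⁻¹)`. -/
noncomputable def piAut : QDiv k q ≃ₐ[k] QDiv k q :=
  AlgEquiv.ofAlgHom (phi hq) ((phi hq).comp ((phi hq).comp ((phi hq).comp (phi hq))))
    (phi_comp hq) (phi_comp hq)

theorem piAut_apply (d : QDiv k q) : piAut hq d = phi hq d := rfl

theorem piAut_orb (i : Fin 5) : piAut hq (orb k q i) = orb k q (i + 1) := by
  rw [piAut_apply]
  fin_cases i
  · exact phi_x hq
  · exact phi_y hq
  · exact phi_a2 hq
  · exact phi_a3 hq
  · exact phi_a4 hq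

theorem orderOf_piAut : orderOf (piAut hq : QDiv k q ≃ₐ[k] QDiv k q) = 5 := by
  have : Fact (Nat.Prime 5) := ⟨by norm_num⟩
  apply orderOf_eq_prime
  · apply AlgEquiv.ext
    intro d
    exact AlgHom.congr_fun (phi_comp hq) d
  · intro h
    have h1 : piAut hq (x k q) = x k q := by rw [h]; rfl
    rw [piAut_apply, phi_x] at h1
    have h2 := incl_injective h1
    rw [X_eq_mono, Y_eq_mono, ← basis_apply, ← basis_apply] at h2
    have := basis.injective h2
    simp at this

end Phi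

end Pool.Agent.Helper42.LynessQDiv
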