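import Pool.Agent.Helper82.YM.Transfer

/-!
# Task YM-K: linearisation of the holonomy of a rectangle (helper42)
-/

open MeasureTheory
open scoped Matrix.Norms.Frobenius ComplexConjugate

noncomputable section

namespace Pool.Agent.Helper82.YM

open Pool.Agent.LGT (tr haar)

variable {N : ℕ} {G : Subgroup (Matrix.unitaryGroup (Fin N) ℂ)}

/-- The four sides of the rectangle at `x` in the `(0,1)` plane. -/
def rectDev {L : ℕ} (V : TE L → G) (x : TV L) (a b : ℕ) : ℝ :=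
  (∑ s ∈ Finset.range a, dev (V (x + s • ts 0, 0))) +
    (∑ t ∈ Finset.range b, dev (V (x + a • ts 0 + t • ts 1, 1))) +
    (∑ s ∈ Finset.range a, dev (V (x + b • ts 1 + s • ts 0, 0))) +
    (∑ t ∈ Finset.range b, dev (V (x + t • ts 1, 1)))

namespace Lin

lemma mul_err (g h : G) (A B : Matrix (Fin N) (Fin N) ℂ) :
    ‖(mat (g * h) - 1) - (A + B)‖ ≤
      ‖(mat g - 1) - A‖ + ‖(mat h - 1) - B‖ + dev g * dev h := by
  have h1 : (mat (g * h) - 1) - (A + B) =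
      ((mat g - 1) - A) + ((mat h - 1) - B) + (mat g - 1) * (mat h - 1) := by
    rw [mat_mul]; noncomm_ring
  rw [h1]
  refine (norm_add_le _ _).trans ?_
  refine add_le_add (norm_add_le _ _) ?_
  exact Matrix.frobenius_norm_mul _ _

lemma inv_err (g : G) : ‖(mat g⁻¹ - 1) + (mat g - 1)‖ ≤ dev g ^ 2 := by
  have h1 : (mat g⁻¹ - 1) + (mat g - 1) = -((mat g - 1) * (mat g⁻¹ - 1)) := by
    have : mat g * mat g⁻¹ = 1 := by rw [← mat_mul, mul_inv_cancel, mat_one]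
    rw [sub_mul, mul_sub, this]
    noncomm_ring
  rw [h1, norm_neg]
  refine (Matrix.frobenius_norm_mul _ _).trans ?_
  have h2 : ‖mat g⁻¹ - 1‖ = dev g := dev_inv g
  rw [h2, sq]
  exact le_rfl

lemma dev_tline {L : ℕ} (V : TE L → G) (x : TV L) (i : Fin 4) (n : ℕ) :
    dev (tline V x i n) ≤ ∑ s ∈ Finset.range n, dev (V (x + s • ts i, i)) := by
  induction n with
  | zero => simp [tline, dev_one]
  | succ n ih =>
    rw [tline, Finset.sum_range_succ]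
    exact (dev_mul_le _ _).trans (by linarith)

lemma tline_err {L : ℕ} (V : TE L → G) (x : TV L) (i : Fin 4) (n : ℕ) :
    ‖(mat (tline V x i n) - 1) - ∑ s ∈ Finset.range n, (mat (V (x + s • ts i, i)) - 1)‖ ≤
      (∑ s ∈ Finset.range n, dev (V (x + s • ts i, i))) ^ 2 / 2 := by
  induction n with
  | zero => simp [tline, mat_one]
  | succ n ih =>
    rw [tline, Finset.sum_range_succ, Finset.sum_range_succ]
    refine (mul_err _ _ _ _).trans ?_
    rw [sub_self, norm_zero, add_zero]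
    have h1 := dev_tline V x i n
    have h2 := dev_nonneg (V (x + n • ts i, i))
    have h3 := dev_nonneg (tline V x i n)
    nlinarith [mul_le_mul_of_nonneg_right h1 h2, sq_nonneg (dev (V (x + n • ts i, i)))]

lemma tline_inv_err {L : ℕ} (V : TE L → G) (x : TV L) (i : Fin 4) (n : ℕ) :
    ‖(mat (tline V x i n)⁻¹ - 1) - -∑ s ∈ Finset.range n, (mat (V (x + s • ts i, i)) - 1)‖ ≤
      3 / 2 * (∑ s ∈ Finset.range n, dev (V (x + s • ts i, i))) ^ 2 := by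
  have h1 := tline_err V x i n
  have h2 := inv_err (tline V x i n)
  have h3 := dev_tline V x i n
  have h4 := dev_nonneg (tline V x i n)
  have h5 : (mat (tline V x i n)⁻¹ - 1) - -∑ s ∈ Finset.range n, (mat (V (x + s • ts i, i)) - 1) =
      ((mat (tline V x i n)⁻¹ - 1) + (mat (tline V x i n) - 1)) -
        ((mat (tline V x i n) - 1) - ∑ s ∈ Finset.range n, (mat (V (x + s • ts i, i)) - 1)) := by
    abel
  rw [h5]
  refine (norm_sub_le _ _).trans ?_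
  have h6 : dev (tline V x i n) ^ 2 ≤ (∑ s ∈ Finset.range n, dev (V (x + s • ts i, i))) ^ 2 :=
    pow_le_pow_left₀ h4 h3 2
  linarith

lemma cv_nsmul {L : ℕ} (s : ℕ) (i : Fin 4) : (Tr.cv ((s : ℤ) • ez i) : TV L) = s • ts i := by
  funext k
  by_cases h : k = i
  · subst h; simp [Tr.cv, ez, ts]
  · simp [Tr.cv, ez, ts, h]

variable {M : Type*} [AddCommGroup M] [Module ℝ M]

lemma ev_line {L : ℕ} (a : TV L → M) (z : Fin 4 → ℤ) (i : Fin 4) (n : ℕ) :
    Tr.ev a (T z * LM.line i n) = ∑ s ∈ Finset.range n, a (Tr.cv z + s • ts i) := by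
  rw [LM.line, Finset.mul_sum, map_sum]
  refine Finset.sum_congr rfl fun s _ => ?_
  rw [LM.T_mul, Tr.ev_T, Tr.cv_add, cv_nsmul]

lemma bd_rect_zero (a b : ℕ) : bd (rectQ a b) 0 =
    LM.line 0 a - T ((b : ℤ) • ez 1) * LM.line 0 a := by
  have h := LM.ds_mul_line 1 b
  rw [LM.bd_zero, LM.rectQ_eq, show ds 1 * (LM.line 0 a * LM.line 1 b) =
    (ds 1 * LM.line 1 b) * LM.line 0 a by ring, h, LM.T_ez_pow]
  ring

lemma bd_rect_one (a b : ℕ) : bd (rectQ a b) 1 =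
    T ((a : ℤ) • ez 0) * LM.line 1 b - LM.line 1 b := by
  have h := LM.ds_mul_line 0 a
  rw [LM.bd_one, LM.rectQ_eq, show ds 0 * (LM.line 0 a * LM.line 1 b) =
    (ds 0 * LM.line 0 a) * LM.line 1 b by ring, h, LM.T_ez_pow]
  ring

lemma pair_rect {L : ℕ} [NeZero L] (A : TE L → M) (z : Fin 4 → ℤ) (a b : ℕ) :
    Tr.pair A (fun i => T z * bd (rectQ a b) i) =
      (∑ s ∈ Finset.range a, A (Tr.cv z + s • ts 0, 0)) +
        (∑ t ∈ Finset.range b, A (Tr.cv z + a • ts 0 + t • ts 1, 1)) +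
        (-∑ s ∈ Finset.range a, A (Tr.cv z + b • ts 1 + s • ts 0, 0)) +
        (-∑ t ∈ Finset.range b, A (Tr.cv z + t • ts 1, 1)) := by
  rw [Tr.pair, Fin.sum_univ_four]
  simp only [LM.bd_two, LM.bd_three, mul_zero, map_zero, add_zero]
  rw [bd_rect_zero, bd_rect_one, mul_sub, mul_sub, ← mul_assoc, ← mul_assoc, LM.T_mul, LM.T_mul,
    map_sub, map_sub, ev_line, ev_line, ev_line, ev_line, Tr.cv_add, Tr.cv_add, cv_nsmul, cv_nsmul]
  abel

end Lin

/-- `‖u₁⋯u_m - 1 - ∑ (u_i - 1)‖ ≤ (∑ ‖u_i - 1‖)²` for unitaries, `‖(u⁻¹ - 1) + (u - 1)‖ ≤ ‖u - 1‖²`.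
(`Tr.pair`, `Tr.cv` in YM/Transfer.lean, `bd`, `rectQ`, `T` in YM/Lat.lean, `line` in
YM/LatMain.lean.) -/
theorem rect_lin {L : ℕ} [NeZero L] (V : TE L → G) (z : Fin 4 → ℤ) (a b : ℕ) :
    ‖(mat (trect V (Tr.cv z) 0 1 a b) - 1) -
        Tr.pair (fun e => mat (V e) - 1) (fun i => T z * bd (rectQ a b) i)‖ ≤
      2 * rectDev V (Tr.cv z) a b ^ 2 := by
  rw [Lin.pair_rect, trect]
  have e1 := Lin.tline_err V (Tr.cv z) 0 a
  have e2 := Lin.tline_err V (Tr.cv z + a • ts 0) 1 b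
  have e3 := Lin.tline_inv_err V (Tr.cv z + b • ts 1) 0 a
  have e4 := Lin.tline_inv_err V (Tr.cv z) 1 b
  have d1 := Lin.dev_tline V (Tr.cv z) 0 a
  have d2 := Lin.dev_tline V (Tr.cv z + a • ts 0) 1 b
  have d3 := Lin.dev_tline V (Tr.cv z + b • ts 1) 0 a
  have d4 := Lin.dev_tline V (Tr.cv z) 1 b
  rw [rectDev]
  set S1 := ∑ s ∈ Finset.range a, dev (V (Tr.cv z + s • ts 0, 0)) with hS1
  set S2 := ∑ t ∈ Finset.range b, dev (V (Tr.cv z + a • ts 0 + t • ts 1, 1)) with hS2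
  set S3 := ∑ s ∈ Finset.range a, dev (V (Tr.cv z + b • ts 1 + s • ts 0, 0)) with hS3
  set S4 := ∑ t ∈ Finset.range b, dev (V (Tr.cv z + t • ts 1, 1)) with hS4
  set g1 := tline V (Tr.cv z) 0 a with hg1
  set g2 := tline V (Tr.cv z + a • ts 0) 1 b with hg2
  set g3 := tline V (Tr.cv z + b • ts 1) 0 a with hg3
  set g4 := tline V (Tr.cv z) 1 b with hg4
  have n1 := dev_nonneg g1
  have n2 := dev_nonneg g2
  have n3 := dev_nonneg g3
  have n4 := dev_nonneg g4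
  have m12 := Lin.mul_err g1 g2 (∑ s ∈ Finset.range a, (mat (V (Tr.cv z + s • ts 0, 0)) - 1))
    (∑ t ∈ Finset.range b, (mat (V (Tr.cv z + a • ts 0 + t • ts 1, 1)) - 1))
  have m123 := Lin.mul_err (g1 * g2) g3⁻¹
    ((∑ s ∈ Finset.range a, (mat (V (Tr.cv z + s • ts 0, 0)) - 1)) +
      (∑ t ∈ Finset.range b, (mat (V (Tr.cv z + a • ts 0 + t • ts 1, 1)) - 1)))
    (-∑ s ∈ Finset.range a, (mat (V (Tr.cv z + b • ts 1 + s • ts 0, 0)) - 1))
  have m1234 := Lin.mul_err (g1 * g2 * g3⁻¹) g4⁻¹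
    ((∑ s ∈ Finset.range a, (mat (V (Tr.cv z + s • ts 0, 0)) - 1)) +
      (∑ t ∈ Finset.range b, (mat (V (Tr.cv z + a • ts 0 + t • ts 1, 1)) - 1)) +
      (-∑ s ∈ Finset.range a, (mat (V (Tr.cv z + b • ts 1 + s • ts 0, 0)) - 1)))
    (-∑ t ∈ Finset.range b, (mat (V (Tr.cv z + t • ts 1, 1)) - 1))
  have p12 := dev_mul_le g1 g2
  have p123 := dev_mul_le (g1 * g2) g3⁻¹
  rw [dev_inv] at p123 m123 m1234
  have q1 : dev g1 * dev g2 ≤ S1 * S2 := mul_le_mul d1 d2 n2 (n1.trans d1)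
  have q2 : dev (g1 * g2) * dev g3 ≤ (S1 + S2) * S3 :=
    mul_le_mul (by linarith) d3 n3 (by linarith)
  have q3 : dev (g1 * g2 * g3⁻¹) * dev g4 ≤ (S1 + S2 + S3) * S4 :=
    mul_le_mul (by linarith) d4 n4 (by linarith)
  refine m1234.trans ?_
  have s1 : 0 ≤ S1 := n1.trans d1
  have s2 : 0 ≤ S2 := n2.trans d2
  have s3 : 0 ≤ S3 := n3.trans d3
  have s4 : 0 ≤ S4 := n4.trans d4
  nlinarith [mul_nonneg s1 s2, mul_nonneg s1 s3, mul_nonneg s1 s4, mul_nonneg s2 s3,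
    mul_nonneg s2 s4, mul_nonneg s3 s4, sq_nonneg S1, sq_nonneg S2, sq_nonneg S3, sq_nonneg S4]

end Pool.Agent.Helper82.YM
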